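import Mathlib

set_option autoImplicit false

namespace Pool.Agent.V5helper5.SQ

open Finset

lemma quad_zero {a b c t1 t2 t3 : ℚ} (h12 : t1 ≠ t2) (h13 : t1 ≠ t3) (h23 : t2 ≠ t3)
    (h1 : a * t1 ^ 2 + b * t1 + c = 0) (h2 : a * t2 ^ 2 + b * t2 + c = 0)
    (h3 : a * t3 ^ 2 + b * t3 + c = 0) : a = 0 ∧ b = 0 ∧ c = 0 := by
  have e1 : (t1 - t2) * (a * (t1 + t2) + b) = 0 := by linear_combination h1 - h2
  have e2 : (t1 - t3) * (a * (t1 + t3) + b) = 0 := by linear_combination h1 - h3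
  have f1 : a * (t1 + t2) + b = 0 := (mul_eq_zero.1 e1).resolve_left (sub_ne_zero.2 h12)
  have f2 : a * (t1 + t3) + b = 0 := (mul_eq_zero.1 e2).resolve_left (sub_ne_zero.2 h13)
  have f3 : a * (t2 - t3) = 0 := by linear_combination f1 - f2
  have ha : a = 0 := (mul_eq_zero.1 f3).resolve_right (sub_ne_zero.2 h23)
  have hb : b = 0 := by rw [ha] at f1; linarith
  refine ⟨ha, hb, ?_⟩
  rw [ha, hb] at h1; linarith

/-- Three positive solutions of a pair of Pell type equations are linearly independent. -/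
lemma det_ne {P Q R S e1 e2 : ℤ} (he1 : e1 ≠ 0) (he2 : e2 ≠ 0) (hP : P ≠ 0) (hR : R ≠ 0)
    (hne : Q * e2 ≠ S * e1) {A B C : Fin 3 → ℤ} (hA : ∀ i, 0 < A i)
    (hinj : Function.Injective A)
    (h1 : ∀ i, P * B i ^ 2 - Q * A i ^ 2 = e1) (h2 : ∀ i, R * C i ^ 2 - S * A i ^ 2 = e2) :
    (Matrix.of ![A, B, C]).det ≠ 0 := by
  intro hdet
  obtain ⟨v, hv, hv0⟩ := Matrix.exists_vecMul_eq_zero_iff.2 hdet
  have hlin : ∀ j, v 0 * A j + v 1 * B j + v 2 * C j = 0 := by
    intro j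
    have h := congrFun hv0 j
    simp only [Matrix.vecMul, dotProduct, Fin.sum_univ_three, Matrix.of_apply, Matrix.cons_val_zero,
      Matrix.cons_val_one, Matrix.cons_val, Pi.zero_apply] at h
    linarith
  -- equal ratios force equal first coordinates
  have hratio : ∀ i j, A i * B j = A j * B i → i = j := by
    intro i j h
    apply hinj
    have e : e1 * (A j ^ 2 - A i ^ 2) = 0 := by
      have := h1 i
      have := h1 j
      have hs : A i ^ 2 * B j ^ 2 = A j ^ 2 * B i ^ 2 := by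
        rw [← mul_pow, ← mul_pow, h]
      linear_combination (-(A j ^ 2)) * h1 i + (A i ^ 2) * h1 j - P * hs
    have e' := (mul_eq_zero.1 e).resolve_left he1
    have e'' : A j ^ 2 = A i ^ 2 := by linarith
    exact ((pow_left_inj₀ (hA j).le (hA i).le two_ne_zero).1 e'').symm
  by_cases hn : v 2 = 0
  · have hl : ∀ j, v 0 * A j + v 1 * B j = 0 := by
      intro j; have := hlin j; rw [hn] at this; linarith
    have hm : v 1 ≠ 0 := by
      intro h1'
      apply hv
      have h0 : v 0 = 0 := by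
        have := hl 0
        rw [h1', zero_mul, add_zero] at this
        exact (mul_eq_zero.1 this).resolve_right (hA 0).ne'
      funext i
      fin_cases i
      · exact h0
      · exact h1'
      · exact hn
    have h01 : (0 : Fin 3) = 1 := by
      apply hratio
      have := hl 0
      have := hl 1
      have e : v 1 * (A 0 * B 1 - A 1 * B 0) = 0 := by
        linear_combination (-(A 1)) * hl 0 + (A 0) * hl 1
      have := (mul_eq_zero.1 e).resolve_left hm
      linarith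
    exact absurd h01 (by decide)
  · -- the homogeneous quadratic relation
    set a : ℤ := e2 * P * v 2 ^ 2 - e1 * R * v 1 ^ 2 with ha
    set b : ℤ := -2 * e1 * R * v 0 * v 1 with hb
    set c : ℤ := (e1 * S - e2 * Q) * v 2 ^ 2 - e1 * R * v 0 ^ 2 with hc
    have hq : ∀ j, a * B j ^ 2 + b * (A j * B j) + c * A j ^ 2 = 0 := by
      intro j
      have hC : v 2 * C j = -(v 0 * A j + v 1 * B j) := by have := hlin j; linarith
      have hC2 : v 2 ^ 2 * C j ^ 2 = (v 0 * A j + v 1 * B j) ^ 2 := by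
        rw [← mul_pow, hC]; ring
      rw [ha, hb, hc]
      linear_combination (e2 * v 2 ^ 2) * h1 j - (e1 * v 2 ^ 2) * h2 j + (e1 * R) * hC2
    have hqQ : ∀ j, (a : ℚ) * ((B j : ℚ) / A j) ^ 2 + (b : ℚ) * ((B j : ℚ) / A j) + (c : ℚ) = 0 := by
      intro j
      have hA0 : (A j : ℚ) ≠ 0 := by exact_mod_cast (hA j).ne'
      have h := hq j
      have h' : (a : ℚ) * (B j : ℚ) ^ 2 + b * ((A j : ℚ) * B j) + c * (A j : ℚ) ^ 2 = 0 := by
        exact_mod_cast h
      field_simp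
      linarith
    have hdiff : ∀ i j, i ≠ j → (B i : ℚ) / A i ≠ (B j : ℚ) / A j := by
      intro i j hij h
      apply hij
      apply hratio
      have hi : (A i : ℚ) ≠ 0 := by exact_mod_cast (hA i).ne'
      have hj : (A j : ℚ) ≠ 0 := by exact_mod_cast (hA j).ne'
      rw [div_eq_div_iff hi hj] at h
      have h' : B i * A j = B j * A i := by exact_mod_cast h
      linarith
    obtain ⟨ha0, hb0, hc0⟩ := quad_zero (hdiff 0 1 (by decide)) (hdiff 0 2 (by decide))
      (hdiff 1 2 (by decide)) (hqQ 0) (hqQ 1) (hqQ 2)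
    have ha0' : a = 0 := by exact_mod_cast ha0
    have hb0' : b = 0 := by exact_mod_cast hb0
    have hc0' : c = 0 := by exact_mod_cast hc0
    have hv2 : v 2 ^ 2 ≠ 0 := pow_ne_zero 2 hn
    have hb1 : v 0 = 0 ∨ v 1 = 0 := by
      rw [hb] at hb0'
      have : e1 * R * (v 0 * v 1) = 0 := by linarith
      rcases mul_eq_zero.1 this with h | h
      · exact absurd h (mul_ne_zero he1 hR)
      · exact mul_eq_zero.1 h
    rcases hb1 with h | h
    · rw [hc, h] at hc0'
      have : (e1 * S - e2 * Q) * v 2 ^ 2 = 0 := by linarith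
      rcases mul_eq_zero.1 this with h' | h'
      · apply hne; linarith
      · exact hv2 h'
    · rw [ha, h] at ha0'
      have : (e2 * P) * v 2 ^ 2 = 0 := by linarith
      rcases mul_eq_zero.1 this with h' | h'
      · exact (mul_ne_zero he2 hP) h'
      · exact hv2 h'

/-- One Pell type equation: `B` is close to a fixed multiple of `A`. -/
lemma near {P Q e A B : ℤ} (hP : P ≠ 0) (hQ : Q ≠ 0) (hA : 0 < A) (hB : 0 < B)
    (h : P * B ^ 2 - Q * A ^ 2 = e) (he : |e| < A ^ 2) :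
    |(B : ℝ) - √((Q : ℝ) / P) * A| ≤ |(e : ℝ)| / A := by
  have hAR : (0 : ℝ) < A := by exact_mod_cast hA
  have hBR : (0 : ℝ) < B := by exact_mod_cast hB
  have hPR : (P : ℝ) ≠ 0 := by exact_mod_cast hP
  have hQR : (Q : ℝ) ≠ 0 := by exact_mod_cast hQ
  have hA2 : 0 < A ^ 2 := by positivity
  have hB2 : 0 < B ^ 2 := by positivity
  have hPQ : 0 < P * Q := by
    rcases lt_or_gt_of_ne hQ with hq | hq
    · have h1 : Q * A ^ 2 ≤ -A ^ 2 := by nlinarith
      have h2 : P * B ^ 2 < 0 := by have := abs_lt.1 he; linarith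
      have h3 : P < 0 := by
        by_contra h4
        push Not at h4
        have := mul_nonneg h4 hB2.le
        linarith
      exact mul_pos_of_neg_of_neg h3 hq
    · have h1 : A ^ 2 ≤ Q * A ^ 2 := by nlinarith
      have h2 : 0 < P * B ^ 2 := by have := abs_lt.1 he; linarith
      have h3 : 0 < P := by
        by_contra h4
        push Not at h4
        have := mul_nonpos_of_nonpos_of_nonneg h4 hB2.le
        linarith
      exact mul_pos h3 hq
  have hQP : (0 : ℝ) < (Q : ℝ) / P := by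
    have : (0 : ℝ) < (P : ℝ) * Q := by exact_mod_cast hPQ
    have e1 : (Q : ℝ) / P = (P * Q) / P ^ 2 := by field_simp
    rw [e1]; positivity
  set α := √((Q : ℝ) / P) with hα
  have hα0 : 0 < α := Real.sqrt_pos.2 hQP
  have hα2 : α ^ 2 = (Q : ℝ) / P := Real.sq_sqrt hQP.le
  have hαP : (|(P : ℝ)| * α) ^ 2 = (P : ℝ) * Q := by
    rw [mul_pow, sq_abs, hα2]; field_simp
  have h1 : 1 ≤ |(P : ℝ)| * α := by
    have h2 : (1 : ℝ) ≤ (|(P : ℝ)| * α) ^ 2 := by rw [hαP]; exact_mod_cast hPQ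
    have h3 : 0 ≤ |(P : ℝ)| * α := by positivity
    nlinarith
  have hfac : (P : ℝ) * ((B - α * A) * (B + α * A)) = e := by
    have h2 : (P : ℝ) * (α ^ 2 * A ^ 2) = Q * A ^ 2 := by rw [hα2]; field_simp
    have h3 : (P : ℝ) * B ^ 2 - Q * A ^ 2 = e := by exact_mod_cast h
    calc (P : ℝ) * ((B - α * A) * (B + α * A)) = P * B ^ 2 - P * (α ^ 2 * A ^ 2) := by ring
      _ = e := by rw [h2]; exact h3
  have habs : |(P : ℝ)| * (|(B : ℝ) - α * A| * (B + α * A)) = |(e : ℝ)| := by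
    rw [← hfac, abs_mul, abs_mul, abs_of_pos (show (0 : ℝ) < B + α * A by positivity)]
  rw [le_div_iff₀ hAR, ← habs]
  have h4 : (A : ℝ) ≤ |(P : ℝ)| * (B + α * A) := by
    have h5 : |(P : ℝ)| * (B + α * A) = |(P : ℝ)| * B + (|(P : ℝ)| * α) * A := by ring
    rw [h5]
    have h6 : 0 ≤ |(P : ℝ)| * B := by positivity
    nlinarith
  calc |(B : ℝ) - α * A| * A ≤ |(B : ℝ) - α * A| * (|(P : ℝ)| * (B + α * A)) :=
        mul_le_mul_of_nonneg_left h4 (abs_nonneg _)
    _ = |(P : ℝ)| * (|(B : ℝ) - α * A| * (B + α * A)) := by ring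

/-- The determinant is small. -/
lemma det_le {a b c : Fin 3 → ℝ} {F G : ℝ} (hF : 0 ≤ F) (hG : 0 ≤ G) (h0 : 0 < a 0) (h01 : a 0 ≤ a 1)
    (h12 : a 1 ≤ a 2) (hb : ∀ i, |b i| ≤ F / a i) (hc : ∀ i, |c i| ≤ G / a i) :
    |(Matrix.of ![a, b, c]).det| ≤ 6 * F * G * a 2 / (a 0 * a 1) := by
  have h1 : 0 < a 1 := lt_of_lt_of_le h0 h01
  have h2 : 0 < a 2 := lt_of_lt_of_le h1 h12
  have hpos : ∀ i, 0 < a i := by intro i; fin_cases i <;> assumption
  have hle : ∀ i, a i ≤ a 2 := by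
    intro i; fin_cases i
    · exact h01.trans h12
    · exact h12
    · exact le_refl _
  have term : ∀ i j l : Fin 3, a i * (a j * a l) = a 0 * a 1 * a 2 → |a i * b j * c l| ≤
      F * G * a 2 / (a 0 * a 1) := by
    intro i j l hijl
    rw [abs_mul, abs_mul, abs_of_pos (hpos i)]
    have e1 : a i * |b j| * |c l| ≤ a i * (F / a j) * (G / a l) := by
      apply mul_le_mul _ (hc l) (abs_nonneg _)
      · have := hpos i; have := hpos j; positivity
      · exact mul_le_mul_of_nonneg_left (hb j) (hpos i).le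
    refine e1.trans ?_
    have hi := hpos i
    have hj := hpos j
    have hl := hpos l
    have e2 : a i * (F / a j) * (G / a l) = F * G * (a i * a i) / (a 0 * a 1 * a 2) := by
      rw [← hijl]; field_simp
    rw [e2]
    have e3 : a i * a i ≤ a 2 * a 2 := mul_le_mul (hle i) (hle i) hi.le h2.le
    have e4 : F * G * a 2 / (a 0 * a 1) = F * G * (a 2 * a 2) / (a 0 * a 1 * a 2) := by
      field_simp
    rw [e4]
    apply div_le_div_of_nonneg_right _ (by positivity)
    exact mul_le_mul_of_nonneg_left e3 (by positivity)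
  have hdet : (Matrix.of ![a, b, c]).det = a 0 * b 1 * c 2 - a 0 * b 2 * c 1 - a 1 * b 0 * c 2
      + a 1 * b 2 * c 0 + a 2 * b 0 * c 1 - a 2 * b 1 * c 0 := by
    rw [Matrix.det_fin_three]
    simp
  rw [hdet]
  have t1 := term 0 1 2 (by ring)
  have t2 := term 0 2 1 (by ring)
  have t3 := term 1 0 2 (by ring)
  have t4 := term 1 2 0 (by ring)
  have t5 := term 2 0 1 (by ring)
  have t6 := term 2 1 0 (by ring)
  have e : 6 * F * G * a 2 / (a 0 * a 1) = 6 * (F * G * a 2 / (a 0 * a 1)) := by ring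
  rw [e]
  have a1 := abs_le.1 t1
  have a2 := abs_le.1 t2
  have a3 := abs_le.1 t3
  have a4 := abs_le.1 t4
  have a5 := abs_le.1 t5
  have a6 := abs_le.1 t6
  rw [abs_le]
  constructor <;> linarith [a1.1, a1.2, a2.1, a2.2, a3.1, a3.2, a4.1, a4.2, a5.1, a5.2, a6.1, a6.2]

/-- **Gap principle for a pair of Pell type equations.** -/
lemma gap_two {P Q R S e1 e2 : ℤ} (he1 : e1 ≠ 0) (he2 : e2 ≠ 0) (hP : P ≠ 0) (hQ : Q ≠ 0)
    (hR : R ≠ 0) (hS : S ≠ 0) (hne : Q * e2 ≠ S * e1) {A B C : Fin 3 → ℤ} (hA : ∀ i, 0 < A i)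
    (hB : ∀ i, 0 < B i) (hC : ∀ i, 0 < C i) (h01 : A 0 < A 1) (h12 : A 1 < A 2)
    (h1 : ∀ i, P * B i ^ 2 - Q * A i ^ 2 = e1) (h2 : ∀ i, R * C i ^ 2 - S * A i ^ 2 = e2)
    (hb1 : |e1| < A 0 ^ 2) (hb2 : |e2| < A 0 ^ 2) : A 0 * A 1 ≤ 6 * |e1| * |e2| * A 2 := by
  have hinj : Function.Injective A := by
    intro i j h
    fin_cases i <;> fin_cases j <;> simp_all <;> omega
  have hdet := det_ne he1 he2 hP hR hne hA hinj h1 h2
  have hmono : ∀ i, A 0 ≤ A i := by
    intro i; fin_cases i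
    · exact le_refl _
    · exact h01.le
    · exact (h01.trans h12).le
  have hsq : ∀ i, A 0 ^ 2 ≤ A i ^ 2 := fun i => pow_le_pow_left₀ (hA 0).le (hmono i) 2
  set α := √((Q : ℝ) / P)
  set γ := √((S : ℝ) / R)
  have hnb : ∀ i, |(B i : ℝ) - α * A i| ≤ |(e1 : ℝ)| / A i := fun i =>
    near hP hQ (hA i) (hB i) (h1 i) (lt_of_lt_of_le hb1 (hsq i))
  have hnc : ∀ i, |(C i : ℝ) - γ * A i| ≤ |(e2 : ℝ)| / A i := fun i =>
    near hR hS (hA i) (hC i) (h2 i) (lt_of_lt_of_le hb2 (hsq i))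
  have hle := det_le (a := fun i => (A i : ℝ)) (b := fun i => (B i : ℝ) - α * A i)
    (c := fun i => (C i : ℝ) - γ * A i) (abs_nonneg (e1 : ℝ)) (abs_nonneg (e2 : ℝ))
    (by exact_mod_cast hA 0) (by exact_mod_cast h01.le) (by exact_mod_cast h12.le) hnb hnc
  have hcast : (Matrix.of ![fun i => (A i : ℝ), fun i => (B i : ℝ) - α * A i,
      fun i => (C i : ℝ) - γ * A i]).det = (((Matrix.of ![A, B, C]).det : ℤ) : ℝ) := by
    rw [Matrix.det_fin_three, Matrix.det_fin_three]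
    simp
    ring
  rw [hcast] at hle
  have hone : (1 : ℝ) ≤ |(((Matrix.of ![A, B, C]).det : ℤ) : ℝ)| := by
    exact_mod_cast Int.one_le_abs hdet
  have h3 := hone.trans hle
  have hA0 : (0 : ℝ) < A 0 := by exact_mod_cast hA 0
  have hA1 : (0 : ℝ) < A 1 := by exact_mod_cast hA 1
  rw [le_div_iff₀ (by positivity), one_mul] at h3
  have h4 : ((A 0 * A 1 : ℤ) : ℝ) ≤ ((6 * |e1| * |e2| * A 2 : ℤ) : ℝ) := by
    push_cast
    exact h3
  exact_mod_cast h4

end Pool.Agent.V5helper5.SQ
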