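import Mathlib

set_option autoImplicit false

namespace Pool.Agent.V5helper5.SQ

open Finset

lemma pow_gap {X Y : ℤ} (hX : 0 < X) (hY : 0 < Y) (hne : X ≠ Y) (n : ℕ) :
    X ^ n ≤ |X ^ (n + 1) - Y ^ (n + 1)| := by
  rcases lt_or_gt_of_ne hne with h | h
  · have h1 : X + 1 ≤ Y := h
    have h2 : X ^ n ≤ Y ^ n := pow_le_pow_left₀ hX.le h.le n
    have h3 : (X + 1) * X ^ n ≤ Y * Y ^ n := mul_le_mul h1 h2 (by positivity) hY.le
    have h4 : X ^ (n + 1) = X * X ^ n := by ring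
    have h5 : Y ^ (n + 1) = Y * Y ^ n := by ring
    rw [abs_sub_comm]
    refine le_trans ?_ (le_abs_self _)
    rw [h4, h5]; linarith
  · have h1 : Y ≤ X - 1 := by omega
    have h2 : Y ^ n ≤ X ^ n := pow_le_pow_left₀ hY.le h.le n
    have h3 : Y * Y ^ n ≤ (X - 1) * X ^ n := mul_le_mul h1 h2 (by positivity) (by omega)
    have h4 : X ^ (n + 1) = X * X ^ n := by ring
    have h5 : Y ^ (n + 1) = Y * Y ^ n := by ring
    refine le_trans ?_ (le_abs_self _)
    rw [h4, h5]; linarith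

/-- **Gap principle for one Thue equation.** -/
lemma gap_pow {P Q e A1 A2 B1 B2 : ℤ} {m : ℕ} (hm : 3 ≤ m) (he : e ≠ 0) (hQ : Q ≠ 0)
    (hA1 : 0 < A1) (hB1 : 0 < B1) (hB2 : 0 < B2) (h12 : A1 < A2)
    (h1 : P * B1 ^ m - Q * A1 ^ m = e) (h2 : P * B2 ^ m - Q * A2 ^ m = e)
    (hbig : 2 * |e| ≤ A2) : A1 ^ 2 ≤ 2 * |e| * A2 := by
  obtain ⟨n, rfl⟩ : ∃ n, m = n + 1 := ⟨m - 1, by omega⟩
  have hn : 2 ≤ n := by omega
  have hA2 : 0 < A2 := hA1.trans h12
  have hid : P * ((A1 * B2) ^ (n + 1) - (A2 * B1) ^ (n + 1)) = e * (A1 ^ (n + 1) - A2 ^ (n + 1)) := by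
    rw [mul_pow, mul_pow]
    linear_combination (A1 ^ (n + 1)) * h2 - (A2 ^ (n + 1)) * h1
  have hpow : A1 ^ (n + 1) < A2 ^ (n + 1) := pow_lt_pow_left₀ h12 hA1.le (by omega)
  have hne : A1 * B2 ≠ A2 * B1 := by
    intro h
    rw [h, sub_self, mul_zero] at hid
    rcases mul_eq_zero.1 hid.symm with h' | h'
    · exact he h'
    · omega
  have hgap := pow_gap (mul_pos hA1 hB2) (mul_pos hA2 hB1) hne n
  have habs : |P| * |(A1 * B2) ^ (n + 1) - (A2 * B1) ^ (n + 1)| ≤ |e| * A2 ^ (n + 1) := by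
    rw [← abs_mul, hid, abs_mul]
    apply mul_le_mul_of_nonneg_left _ (abs_nonneg _)
    rw [abs_sub_comm, abs_of_pos (by omega)]
    have : 0 < A1 ^ (n + 1) := by positivity
    omega
  have hup : |P| * (A1 * B2) ^ n ≤ |e| * A2 ^ (n + 1) :=
    (mul_le_mul_of_nonneg_left hgap (abs_nonneg _)).trans habs
  -- lower bound for `|P| B2 ^ n`
  have hApow : A2 ≤ A2 ^ (n + 1) := by
    have : 1 ≤ A2 ^ n := one_le_pow₀ (by omega)
    calc A2 = A2 * 1 := by ring
      _ ≤ A2 * A2 ^ n := mul_le_mul_of_nonneg_left this hA2.le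
      _ = A2 ^ (n + 1) := by ring
  have hlow1 : A2 ^ (n + 1) ≤ 2 * (|P| * B2 ^ (n + 1)) := by
    have e1 : P * B2 ^ (n + 1) = Q * A2 ^ (n + 1) + e := by linarith
    have e2 : |P| * B2 ^ (n + 1) = |Q * A2 ^ (n + 1) + e| := by
      rw [← e1, abs_mul, abs_of_pos (show (0 : ℤ) < B2 ^ (n + 1) by positivity)]
    have e3 : |Q * A2 ^ (n + 1)| - |e| ≤ |Q * A2 ^ (n + 1) + e| := by
      have := abs_sub_abs_le_abs_sub (Q * A2 ^ (n + 1)) (-e)
      rw [abs_neg, sub_neg_eq_add] at this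
      exact this
    have e4 : A2 ^ (n + 1) ≤ |Q * A2 ^ (n + 1)| := by
      rw [abs_mul, abs_of_pos (show (0 : ℤ) < A2 ^ (n + 1) by positivity)]
      have : 1 ≤ |Q| := Int.one_le_abs hQ
      nlinarith [show (0 : ℤ) < A2 ^ (n + 1) by positivity]
    rw [e2]; linarith
  have hlow : A2 ^ n ≤ 2 * (|P| * B2 ^ n) := by
    have hP0 : 0 ≤ |P| := abs_nonneg _
    have hBn : 0 < B2 ^ n := by positivity
    rcases le_or_gt B2 A2 with hle | hlt
    · have e1 : A2 ^ n * A2 ≤ (2 * (|P| * B2 ^ n)) * A2 := by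
        calc A2 ^ n * A2 = A2 ^ (n + 1) := by ring
          _ ≤ 2 * (|P| * B2 ^ (n + 1)) := hlow1
          _ = (2 * (|P| * B2 ^ n)) * B2 := by ring
          _ ≤ (2 * (|P| * B2 ^ n)) * A2 := mul_le_mul_of_nonneg_left hle (by positivity)
      exact le_of_mul_le_mul_right e1 hA2
    · have hP1 : 1 ≤ |P| := by
        apply Int.one_le_abs
        rintro rfl
        rw [abs_zero, zero_mul, mul_zero] at hlow1
        have : 0 < A2 ^ (n + 1) := by positivity
        omega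
      have e1 : A2 ^ n ≤ B2 ^ n := pow_le_pow_left₀ hA2.le hlt.le n
      nlinarith
  have hfin : A1 ^ n * A2 ^ n ≤ (2 * |e| * A2) * A2 ^ n := by
    calc A1 ^ n * A2 ^ n ≤ A1 ^ n * (2 * (|P| * B2 ^ n)) :=
          mul_le_mul_of_nonneg_left hlow (by positivity)
      _ = 2 * (|P| * (A1 * B2) ^ n) := by rw [mul_pow]; ring
      _ ≤ 2 * (|e| * A2 ^ (n + 1)) := by linarith
      _ = (2 * |e| * A2) * A2 ^ n := by ring
  have h3 : A1 ^ n ≤ 2 * |e| * A2 := le_of_mul_le_mul_right hfin (by positivity)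
  exact (pow_le_pow_right₀ (by omega) hn).trans h3

/-- Sets of integers with the gap property `a b ≤ E c` are doubly exponentially sparse. -/
lemma card_chain {F : Finset ℕ} {E K : ℕ} (hE : 1 ≤ E)
    (hgap : ∀ a ∈ F, ∀ b ∈ F, ∀ c ∈ F, a < b → b < c → a * b ≤ E * c)
    (hlow : ∀ a ∈ F, 2 * E ≤ a) (hup : ∀ a ∈ F, a < 2 ^ (2 ^ K)) : F.card ≤ 2 * K := by
  classical
  set g : ℕ → ℕ := fun a => Nat.log 2 (Nat.log 2 (a / E)) with hg
  have hq : ∀ a ∈ F, 2 ≤ a / E := by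
    intro a ha
    rw [Nat.le_div_iff_mul_le (by omega)]
    exact hlow a ha
  have hstep : ∀ a ∈ F, ∀ b ∈ F, ∀ c ∈ F, a < b → b < c → g a + 1 ≤ g c := by
    intro a ha b hb c hc hab hbc
    have h1 := hgap a ha b hb c hc hab hbc
    have h2 : a * a ≤ E * c := (Nat.mul_le_mul_left a hab.le).trans h1
    have h3 : (a / E) * (a / E) ≤ c / E := by
      rw [Nat.le_div_iff_mul_le (by omega)]
      have h4 : (a / E) * E ≤ a := Nat.div_mul_le_self a E
      have h5 : ((a / E) * E) * ((a / E) * E) ≤ a * a := Nat.mul_le_mul h4 h4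
      have h6 : E * ((a / E) * (a / E) * E) ≤ E * c := by
        calc E * ((a / E) * (a / E) * E) = ((a / E) * E) * ((a / E) * E) := by ring
          _ ≤ a * a := h5
          _ ≤ E * c := h2
      exact Nat.le_of_mul_le_mul_left h6 (by omega)
    have hqa := hq a ha
    set q := a / E with hqdef
    have h7 : 1 ≤ Nat.log 2 q := by
      rw [Nat.one_le_iff_ne_zero, Ne, Nat.log_eq_zero_iff]
      push Not
      exact ⟨hqa, by norm_num⟩
    have h8 : 2 * Nat.log 2 q ≤ Nat.log 2 (c / E) := by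
      apply Nat.le_log_of_pow_le (by norm_num)
      have h9 : 2 ^ Nat.log 2 q ≤ q := Nat.pow_log_le_self 2 (by omega)
      calc 2 ^ (2 * Nat.log 2 q) = 2 ^ Nat.log 2 q * 2 ^ Nat.log 2 q := by rw [two_mul, pow_add]
        _ ≤ q * q := Nat.mul_le_mul h9 h9
        _ ≤ c / E := h3
    show Nat.log 2 (Nat.log 2 q) + 1 ≤ Nat.log 2 (Nat.log 2 (c / E))
    apply Nat.le_log_of_pow_le (by norm_num)
    have h9 : 2 ^ Nat.log 2 (Nat.log 2 q) ≤ Nat.log 2 q := Nat.pow_log_le_self 2 (by omega)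
    calc 2 ^ (Nat.log 2 (Nat.log 2 q) + 1) = 2 * 2 ^ Nat.log 2 (Nat.log 2 q) := by ring
      _ ≤ 2 * Nat.log 2 q := Nat.mul_le_mul_left 2 h9
      _ ≤ Nat.log 2 (c / E) := h8
  have himg : F.image g ⊆ range K := by
    intro y hy
    obtain ⟨a, ha, rfl⟩ := Finset.mem_image.1 hy
    rw [Finset.mem_range]
    have h1 : a / E < 2 ^ (2 ^ K) := lt_of_le_of_lt (Nat.div_le_self a E) (hup a ha)
    have h2 : Nat.log 2 (a / E) < 2 ^ K := Nat.log_lt_of_lt_pow (by have := hq a ha; omega) h1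
    by_cases h3 : Nat.log 2 (a / E) = 0
    · show Nat.log 2 (Nat.log 2 (a / E)) < K
      rw [h3, Nat.log_zero_right]
      rcases Nat.eq_zero_or_pos K with h4 | h4
      · exfalso
        rw [h4, pow_zero, pow_one] at h1
        have := hq a ha; omega
      · exact h4
    · exact Nat.log_lt_of_lt_pow h3 h2
  have hfib : ∀ y ∈ F.image g, (F.filter fun x => g x = y).card ≤ 2 := by
    intro y _
    by_contra h
    push Not at h
    obtain ⟨a, ha, b, hb, c, hc, hab, hac, hbc⟩ := Finset.two_lt_card.1 h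
    rw [Finset.mem_filter] at ha hb hc
    have key : ∀ a b c : ℕ, (a ∈ F ∧ g a = y) → (b ∈ F ∧ g b = y) → (c ∈ F ∧ g c = y) →
        a < b → b < c → False := by
      intro a b c ha hb hc h1 h2
      have := hstep a ha.1 b hb.1 c hc.1 h1 h2
      omega
    rcases lt_or_gt_of_ne hab with h1 | h1 <;> rcases lt_or_gt_of_ne hac with h2 | h2 <;>
      rcases lt_or_gt_of_ne hbc with h3 | h3
    · exact key a b c ha hb hc h1 h3
    · exact key a c b ha hc hb h2 h3
    · omega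
    · exact key c a b hc ha hb h2 h1
    · exact key b a c hb ha hc h1 h2
    · omega
    · exact key b c a hb hc ha h3 h2
    · exact key c b a hc hb ha h3 h1
  calc F.card ≤ 2 * (F.image g).card := Finset.card_le_mul_card_image F 2 hfib
    _ ≤ 2 * (range K).card := Nat.mul_le_mul_left 2 (Finset.card_le_card himg)
    _ = 2 * K := by rw [Finset.card_range]

end Pool.Agent.V5helper5.SQ
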