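import Mathlib

set_option autoImplicit false

namespace Pool.Agent.V5helper5.SQ

open Finset

/-- The 3x+1 map on the integers. -/
def T (x : ℤ) : ℤ := if x % 2 = 0 then x / 2 else (3 * x + 1) / 2

lemma two_T (x : ℤ) : 2 * T x = if x % 2 = 0 then x else 3 * x + 1 := by
  unfold T
  split_ifs with h <;> omega

/-- the number of odd terms among the first `i` terms of the trajectory -/
def od : ℕ → ℤ → ℕ
  | 0, _ => 0
  | i + 1, x => od i x + if T^[i] x % 2 = 0 then 0 else 1

/-- the constant term of the affine branch -/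
def cc : ℕ → ℤ → ℤ
  | 0, _ => 0
  | i + 1, x => if T^[i] x % 2 = 0 then cc i x else 3 * cc i x + 2 ^ i

lemma branch (x : ℤ) : ∀ i : ℕ, 2 ^ i * T^[i] x = 3 ^ od i x * x + cc i x := by
  intro i
  induction i with
  | zero => simp [od, cc]
  | succ i ih =>
    rw [Function.iterate_succ_apply', od, cc]
    have h := two_T (T^[i] x)
    split_ifs at h ⊢ with h1
    · rw [add_zero, ← ih, pow_succ]
      calc (2 : ℤ) ^ i * 2 * T (T^[i] x) = 2 ^ i * (2 * T (T^[i] x)) := by ring
        _ = _ := by rw [h]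
    · rw [pow_succ, pow_succ]
      calc (2 : ℤ) ^ i * 2 * T (T^[i] x) = 2 ^ i * (2 * T (T^[i] x)) := by ring
        _ = 2 ^ i * (3 * T^[i] x + 1) := by rw [h]
        _ = 3 * (2 ^ i * T^[i] x) + 2 ^ i := by ring
        _ = _ := by rw [ih]; ring

lemma cc_bounds (x : ℤ) : ∀ i : ℕ, 0 ≤ cc i x ∧ cc i x ≤ 3 ^ i - 2 ^ i := by
  intro i
  induction i with
  | zero => simp [cc]
  | succ i ih =>
    rw [cc]
    have h2 : (0 : ℤ) < 2 ^ i := by positivity
    have h3 : (2 : ℤ) ^ i ≤ 3 ^ i := pow_le_pow_left₀ (by norm_num) (by norm_num) i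
    split_ifs with h
    · refine ⟨ih.1, ?_⟩
      rw [pow_succ, pow_succ]; linarith [ih.2]
    · refine ⟨by linarith [ih.1], ?_⟩
      rw [pow_succ, pow_succ]; linarith [ih.2]

lemma od_le (x : ℤ) : ∀ i : ℕ, od i x ≤ i := by
  intro i
  induction i with
  | zero => simp [od]
  | succ i ih => rw [od]; split_ifs <;> omega

/-- integers which are congruent modulo `2 ^ w` have the same branches up to `w` steps -/
lemma congr_branch {x y : ℤ} {w : ℕ} (h : (2 : ℤ) ^ w ∣ x - y) :
    ∀ i : ℕ, i ≤ w → od i x = od i y ∧ cc i x = cc i y := by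
  intro i
  induction i with
  | zero => intro _; simp [od, cc]
  | succ i ih =>
    intro hi
    obtain ⟨h1, h2⟩ := ih (by omega)
    have hx := branch x i
    have hy := branch y i
    have hd : (2 : ℤ) ^ i * 2 ∣ 2 ^ i * (T^[i] x - T^[i] y) := by
      rw [mul_sub, hx, hy, h1, h2]
      have e : 3 ^ od i y * x + cc i y - (3 ^ od i y * y + cc i y) = 3 ^ od i y * (x - y) := by ring
      rw [e, ← pow_succ]
      exact Dvd.dvd.mul_left ((pow_dvd_pow 2 hi).trans h) _
    have hd2 : (2 : ℤ) ∣ T^[i] x - T^[i] y := by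
      exact (mul_dvd_mul_iff_left (by positivity)).1 hd
    have hp : T^[i] x % 2 = T^[i] y % 2 := by omega
    rw [od, od, cc, cc, hp, h1, h2]
    exact ⟨rfl, rfl⟩

/-- the constant term with respect to the centre `k` -/
def ek (i : ℕ) (x k : ℤ) : ℤ := cc i x + 3 ^ od i x * k - 2 ^ i * k

lemma branch_k (i : ℕ) (x k : ℤ) : 2 ^ i * (T^[i] x - k) - 3 ^ od i x * (x - k) = ek i x k := by
  unfold ek
  linear_combination branch x i

lemma ek_zero {i : ℕ} {x k : ℤ} (h : ek i x k = 0) : T^[i] k = k ∧ (2 : ℤ) ^ i ∣ x - k := by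
  have h1 := branch_k i x k
  rw [h] at h1
  have h2 : (2 : ℤ) ^ i ∣ 3 ^ od i x * (x - k) := ⟨T^[i] x - k, by linarith⟩
  have h3 : IsCoprime ((2 : ℤ) ^ i) (3 ^ od i x) := by
    apply IsCoprime.pow
    exact Int.isCoprime_iff_gcd_eq_one.2 (by norm_num)
  have h4 : (2 : ℤ) ^ i ∣ x - k := h3.dvd_of_dvd_mul_left h2
  refine ⟨?_, h4⟩
  obtain ⟨h5, h6⟩ := congr_branch h4 i (le_refl i)
  have h7 := branch k i
  rw [← h5, ← h6] at h7
  have h8 : (2 : ℤ) ^ i * T^[i] k = 2 ^ i * k := by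
    unfold ek at h; linarith
  exact mul_left_cancel₀ (by positivity) h8

lemma ek_bound {w i : ℕ} (hi : i ≤ w) (x k : ℤ) : |ek i x k| ≤ 3 ^ w * (1 + |k|) := by
  have hb := cc_bounds x i
  have h2 : (0 : ℤ) < 2 ^ i := by positivity
  have h3 : (2 : ℤ) ^ i ≤ 3 ^ i := pow_le_pow_left₀ (by norm_num) (by norm_num) i
  have h4 : (3 : ℤ) ^ i ≤ 3 ^ w := pow_le_pow_right₀ (by norm_num) hi
  have h5 : (3 : ℤ) ^ od i x ≤ 3 ^ i := pow_le_pow_right₀ (by norm_num) (od_le x i)
  have h6 : (0 : ℤ) < 3 ^ od i x := by positivity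
  have e : ek i x k = cc i x + (3 ^ od i x - 2 ^ i) * k := by unfold ek; ring
  rw [e]
  refine (abs_add_le _ _).trans ?_
  rw [abs_mul, abs_of_nonneg hb.1]
  have h7 : |(3 : ℤ) ^ od i x - 2 ^ i| ≤ 3 ^ w := by rw [abs_le]; constructor <;> linarith
  have h8 := mul_le_mul_of_nonneg_right h7 (abs_nonneg k)
  linarith [hb.2]

lemma abs_T_le (x : ℤ) : |T x| ≤ 2 * |x| := by
  have h := two_T x
  rcases le_or_gt 0 x with h0 | h0
  · rw [abs_of_nonneg h0]
    split_ifs at h with h1
    · rw [abs_le]; constructor <;> omega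
    · rw [abs_le]; constructor <;> omega
  · rw [abs_of_neg h0]
    split_ifs at h with h1
    · rw [abs_le]; constructor <;> omega
    · rw [abs_le]; constructor <;> omega

lemma abs_iterate_le (x : ℤ) : ∀ i : ℕ, |T^[i] x| ≤ 2 ^ i * |x| := by
  intro i
  induction i with
  | zero => simp
  | succ i ih =>
    rw [Function.iterate_succ_apply']
    refine (abs_T_le _).trans ?_
    rw [pow_succ]
    linarith

end Pool.Agent.V5helper5.SQ
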