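import Mathlib
import Pool.Agent.V5helper5.SQ.Gap
import Pool.Agent.V5helper5.SQ.GapPow
import Pool.Agent.V5helper5.SQ.Row

set_option autoImplicit false

namespace Pool.Agent.V5helper5.SQ

open Finset

lemma od_add (i l : ℕ) (x : ℤ) : od (i + l) x = od i x + od l (T^[i] x) := by
  induction l with
  | zero => simp [od]
  | succ l ih =>
    rw [← add_assoc, od, ih, od, add_assoc]
    congr 2
    rw [← Function.iterate_add_apply, add_comm l i]

lemma ek_rel {i j : ℕ} (hij : i ≤ j) (x k : ℤ) :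
    ek j x k - 3 ^ od (j - i) (T^[i] x) * ek i x k = 2 ^ i * ek (j - i) (T^[i] x) k := by
  obtain ⟨l, rfl⟩ := Nat.exists_eq_add_of_le hij
  rw [Nat.add_sub_cancel_left, ← branch_k, ← branch_k, ← branch_k, od_add, pow_add, pow_add,
    ← Function.iterate_add_apply, add_comm l i]
  ring

lemma gap_two' {P Q R S e1 e2 : ℤ} (he1 : e1 ≠ 0) (he2 : e2 ≠ 0) (hP : P ≠ 0) (hQ : Q ≠ 0)
    (hR : R ≠ 0) (hS : S ≠ 0) (hne : Q * e2 ≠ S * e1) {A0 A1 A2 B0 B1 B2 C0 C1 C2 : ℤ}
    (hA0 : 0 < A0) (hB0 : 0 < B0) (hB1 : 0 < B1) (hB2 : 0 < B2)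
    (hC0 : 0 < C0) (hC1 : 0 < C1) (hC2 : 0 < C2) (h01 : A0 < A1) (h12 : A1 < A2)
    (p0 : P * B0 ^ 2 - Q * A0 ^ 2 = e1) (p1 : P * B1 ^ 2 - Q * A1 ^ 2 = e1)
    (p2 : P * B2 ^ 2 - Q * A2 ^ 2 = e1)
    (q0 : R * C0 ^ 2 - S * A0 ^ 2 = e2) (q1 : R * C1 ^ 2 - S * A1 ^ 2 = e2)
    (q2 : R * C2 ^ 2 - S * A2 ^ 2 = e2)
    (hb1 : |e1| < A0 ^ 2) (hb2 : |e2| < A0 ^ 2) : A0 * A1 ≤ 6 * |e1| * |e2| * A2 := by
  have := gap_two he1 he2 hP hQ hR hS hne (A := ![A0, A1, A2]) (B := ![B0, B1, B2])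
    (C := ![C0, C1, C2])
    (by intro i; fin_cases i <;> simp <;> omega) (by intro i; fin_cases i <;> simp <;> omega)
    (by intro i; fin_cases i <;> simp <;> omega) (by simpa using h01) (by simpa using h12)
    (by intro i; fin_cases i <;> simp <;> assumption)
    (by intro i; fin_cases i <;> simp <;> assumption) (by simpa using hb1) (by simpa using hb2)
  simpa using this

lemma class_card {w i j m K : ℕ} {k s1 s2 s3 : ℤ} (hm : 2 ≤ m) (hij : i < j) (hj : j ≤ w)
    (hs1 : s1 ≠ 0) (hs2 : s2 ≠ 0) (hs3 : s3 ≠ 0) {M : ℕ} (hM : (3 : ℤ) ^ w * (1 + |k|) ≤ M)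
    (F : Finset ℤ) (a b c : ℤ → ℕ)
    (hcong : ∀ x ∈ F, ∀ y ∈ F, (2 : ℤ) ^ w ∣ x - y)
    (hne : ∀ x ∈ F, ek i x k ≠ 0 ∧ ek j x k ≠ 0 ∧ ek (j - i) (T^[i] x) k ≠ 0)
    (ha : ∀ x ∈ F, x - k = s1 * (a x : ℤ) ^ m ∧ T^[i] x - k = s2 * (b x : ℤ) ^ m ∧
      T^[j] x - k = s3 * (c x : ℤ) ^ m)
    (hlow : ∀ x ∈ F, 2 * (6 * M ^ 2) ≤ a x) (hup : ∀ x ∈ F, |x - k| < 2 ^ (2 ^ K)) :
    F.card ≤ 2 * K := by
  classical
  have hM1 : 1 ≤ M := by
    have h1 : (1 : ℤ) ≤ 3 ^ w * (1 + |k|) := by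
      have h2 : (1 : ℤ) ≤ 3 ^ w := one_le_pow₀ (by norm_num)
      have h3 := abs_nonneg k
      nlinarith
    have : (1 : ℤ) ≤ M := h1.trans hM
    exact_mod_cast this
  have hMM : (M : ℤ) ≤ (M : ℤ) ^ 2 := by
    have : (1 : ℤ) ≤ M := by exact_mod_cast hM1
    nlinarith
  have hinj : Set.InjOn a F := by
    intro x hx y hy hxy
    have h1 := (ha x hx).1
    have h2 := (ha y hy).1
    rw [hxy, ← h2] at h1
    linarith
  rw [← Finset.card_image_of_injOn hinj]
  -- sizes of the constants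
  have hapos : ∀ x ∈ F, 12 * (M : ℤ) ^ 2 ≤ a x := by
    intro x hx
    have := hlow x hx
    have h : ((2 * (6 * M ^ 2) : ℕ) : ℤ) ≤ a x := by exact_mod_cast this
    push_cast at h; linarith
  have heb : ∀ x ∈ F, ∀ l, l ≤ w → |ek l x k| ≤ M := fun x _ l hl => (ek_bound hl x k).trans hM
  have hapow : ∀ x ∈ F, (a x : ℤ) ≤ |x - k| := by
    intro x hx
    rw [(ha x hx).1, abs_mul]
    have h0 := hapos x hx
    have h1 : (1 : ℤ) ≤ a x := by nlinarith [hMM, hM1]
    have h2 : |(a x : ℤ) ^ m| = (a x : ℤ) ^ m := abs_of_pos (by positivity)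
    rw [h2]
    have h3 : 1 ≤ |s1| := Int.one_le_abs hs1
    have h4 : (a x : ℤ) ≤ (a x : ℤ) ^ m := by
      calc (a x : ℤ) = (a x : ℤ) ^ 1 := by ring
        _ ≤ (a x : ℤ) ^ m := pow_le_pow_right₀ h1 (by omega)
    nlinarith
  have hpos : ∀ x ∈ F, ∀ l, l ≤ w → T^[l] x ≠ k := by
    intro x hx l hl h
    have h1 := branch_k l x k
    rw [h, sub_self, mul_zero, zero_sub] at h1
    have h2 : 3 ^ od l x * |x - k| ≤ M := by
      have h3 : |(3 : ℤ) ^ od l x * (x - k)| ≤ M := by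
        rw [← abs_neg, h1]; exact heb x hx l hl
      rwa [abs_mul, abs_of_pos (by positivity)] at h3
    have h4 : (1 : ℤ) ≤ 3 ^ od l x := one_le_pow₀ (by norm_num)
    have h5 := hapow x hx
    have h6 := hapos x hx
    have h7 : |x - k| ≤ 3 ^ od l x * |x - k| := by nlinarith [abs_nonneg (x - k)]
    have h8 : (0 : ℤ) < M := by exact_mod_cast hM1
    nlinarith
  have hbpos : ∀ x ∈ F, 0 < (b x : ℤ) := by
    intro x hx
    rcases Nat.eq_zero_or_pos (b x) with h | h
    · exfalso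
      have h1 := (ha x hx).2.1
      rw [h, Nat.cast_zero, zero_pow (by omega), mul_zero] at h1
      exact hpos x hx i (by omega) (by linarith)
    · exact_mod_cast h
  have hcpos : ∀ x ∈ F, 0 < (c x : ℤ) := by
    intro x hx
    rcases Nat.eq_zero_or_pos (c x) with h | h
    · exfalso
      have h1 := (ha x hx).2.2
      rw [h, Nat.cast_zero, zero_pow (by omega), mul_zero] at h1
      exact hpos x hx j hj (by linarith)
    · exact_mod_cast h
  apply card_chain (E := 6 * M ^ 2) (by nlinarith [hM1])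
  · intro a' ha' b' hb' c' hc' hab hbc
    obtain ⟨x, hx, rfl⟩ := Finset.mem_image.1 ha'
    obtain ⟨y, hy, rfl⟩ := Finset.mem_image.1 hb'
    obtain ⟨z, hz, rfl⟩ := Finset.mem_image.1 hc'
    -- common branches
    have hyx := fun l hl => congr_branch (hcong y hy x hx) l hl
    have hzx := fun l hl => congr_branch (hcong z hz x hx) l hl
    have eky : ∀ l, l ≤ w → ek l y k = ek l x k := by
      intro l hl; unfold ek; rw [(hyx l hl).1, (hyx l hl).2]
    have ekz : ∀ l, l ≤ w → ek l z k = ek l x k := by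
      intro l hl; unfold ek; rw [(hzx l hl).1, (hzx l hl).2]
    have hi : i ≤ w := by omega
    set e1 := ek i x k with he1
    set e2 := ek j x k with he2
    obtain ⟨n1, n2, n3⟩ := hne x hx
    have hE1 := heb x hx i hi
    have hE2 := heb x hx j hj
    rw [← he1] at hE1 n1
    rw [← he2] at hE2 n2
    -- the equations
    have eqn1 : ∀ u, u ∈ F → ek i u k = e1 → od i u = od i x →
        (2 ^ i * s2) * (b u : ℤ) ^ m - (3 ^ od i x * s1) * (a u : ℤ) ^ m = e1 := by
      intro u hu h1 h2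
      have h3 := branch_k i u k
      rw [(ha u hu).1, (ha u hu).2.1, h1, h2] at h3
      linarith
    have eqn2 : ∀ u, u ∈ F → ek j u k = e2 → od j u = od j x →
        (2 ^ j * s3) * (c u : ℤ) ^ m - (3 ^ od j x * s1) * (a u : ℤ) ^ m = e2 := by
      intro u hu h1 h2
      have h3 := branch_k j u k
      rw [(ha u hu).1, (ha u hu).2.2, h1, h2] at h3
      linarith
    have px := eqn1 x hx rfl rfl
    have py := eqn1 y hy (eky i hi) (hyx i hi).1
    have pz := eqn1 z hz (ekz i hi) (hzx i hi).1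
    have qx := eqn2 x hx rfl rfl
    have qy := eqn2 y hy (eky j hj) (hyx j hj).1
    have qz := eqn2 z hz (ekz j hj) (hzx j hj).1
    have hP : (2 : ℤ) ^ i * s2 ≠ 0 := mul_ne_zero (by positivity) hs2
    have hQ : (3 : ℤ) ^ od i x * s1 ≠ 0 := mul_ne_zero (by positivity) hs1
    have hR : (2 : ℤ) ^ j * s3 ≠ 0 := mul_ne_zero (by positivity) hs3
    have hS : (3 : ℤ) ^ od j x * s1 ≠ 0 := mul_ne_zero (by positivity) hs1
    have hM0 : (0 : ℤ) < M := by exact_mod_cast hM1
    have h0x := hapos x hx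
    have h0y := hapos y hy
    have h0z := hapos z hz
    have hab' : (a x : ℤ) < a y := by exact_mod_cast hab
    have hbc' : (a y : ℤ) < a z := by exact_mod_cast hbc
    have hax : (0 : ℤ) < a x := by nlinarith
    have hay : (0 : ℤ) < a y := by nlinarith
    have goal : (a x : ℤ) * a y ≤ 6 * (M : ℤ) ^ 2 * a z := by
      rcases Nat.lt_or_ge m 3 with hm3 | hm3
      · have hm2 : m = 2 := by omega
        rw [hm2] at px py pz qx qy qz
        have hne' : (3 ^ od i x * s1) * e2 ≠ (3 ^ od j x * s1) * e1 := by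
          intro h
          have hr := ek_rel hij.le x k
          have ho : od j x = od i x + od (j - i) (T^[i] x) := by
            rw [← od_add]; congr 1; omega
          rw [ho, pow_add] at h
          have h2 : (3 : ℤ) ^ od i x * s1 * (2 ^ i * ek (j - i) (T^[i] x) k) = 0 := by
            rw [← hr]; linear_combination h
          rcases mul_eq_zero.1 h2 with h3 | h3
          · exact hQ h3
          · rcases mul_eq_zero.1 h3 with h4 | h4
            · exact absurd h4 (by positivity)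
            · exact n3 h4
        have hbig : (M : ℤ) < (a x : ℤ) ^ 2 := by nlinarith
        have hgap := gap_two' n1 n2 hP hQ hR hS hne' hax (hbpos x hx) (hbpos y hy) (hbpos z hz)
          (hcpos x hx) (hcpos y hy) (hcpos z hz) hab' hbc' px py pz qx qy qz
          (lt_of_le_of_lt hE1 hbig) (lt_of_le_of_lt hE2 hbig)
        refine hgap.trans ?_
        have h1 : |e1| * |e2| ≤ (M : ℤ) * M := mul_le_mul hE1 hE2 (abs_nonneg _) hM0.le
        have h2 : (0 : ℤ) ≤ a z := by positivity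
        nlinarith [mul_le_mul_of_nonneg_right h1 h2]
      · have hbig : 2 * |e1| ≤ a z := by nlinarith
        have hgap := gap_pow hm3 n1 hQ hay (hbpos y hy) (hbpos z hz) hbc' py pz hbig
        have h2 : (0 : ℤ) ≤ a z := by positivity
        have h3 : 2 * |e1| * a z ≤ 6 * (M : ℤ) ^ 2 * a z := by
          apply mul_le_mul_of_nonneg_right _ h2
          nlinarith
        nlinarith
    exact_mod_cast goal
  · intro a' ha'
    obtain ⟨x, hx, rfl⟩ := Finset.mem_image.1 ha'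
    exact hlow x hx
  · intro a' ha'
    obtain ⟨x, hx, rfl⟩ := Finset.mem_image.1 ha'
    have h1 : (a x : ℤ) < 2 ^ (2 ^ K) := lt_of_le_of_lt (hapow x hx) (hup x hx)
    exact_mod_cast h1

end Pool.Agent.V5helper5.SQ
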