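import Mathlib
import Pool.Agent.V5helper5.SQ.Class

set_option autoImplicit false

namespace Pool.Agent.V5helper5.SQ

open Finset Classical

/-- natural form of a special element -/
def SpN (k : ℤ) (m H : ℕ) (y : ℤ) : Prop :=
  (∃ (s : ℤ) (a : ℕ), s ≠ 0 ∧ |s| ≤ H ∧ y - k = s * (a : ℤ) ^ m) ∧
    ∀ π : ℕ, 1 ≤ π → T^[π] k = k → ¬ (2 : ℤ) ^ π ∣ y - k

lemma bad_count {n w : ℕ} (hw : 1 ≤ w) (S : Finset ℕ) (hS : S ⊆ range n) :
    (S.filter fun t => ¬ ∃ i j, 1 ≤ i ∧ i < j ∧ j ≤ w ∧ t + i ∈ S ∧ t + j ∈ S).card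
      ≤ 2 * (n / w + 1) := by

  set Bd := S.filter fun t => ¬ ∃ i j, 1 ≤ i ∧ i < j ∧ j ≤ w ∧ t + i ∈ S ∧ t + j ∈ S with hBd
  have hmaps : ∀ t ∈ Bd, t / w ∈ range (n / w + 1) := by
    intro t ht
    have h1 := hS (Finset.mem_filter.1 ht).1
    rw [Finset.mem_range] at h1 ⊢
    have h2 : t / w ≤ n / w := Nat.div_le_div_right h1.le
    omega
  have hfib : ∀ q ∈ range (n / w + 1), (Bd.filter fun t => t / w = q).card ≤ 2 := by
    intro q _
    by_contra hcon
    push Not at hcon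
    obtain ⟨a, b, c, ha, hb, hc, hab, hac, hbc⟩ := Finset.two_lt_card_iff.1 hcon
    have key : ∀ a b c : ℕ, a ∈ Bd.filter (fun t => t / w = q) → b ∈ Bd.filter (fun t => t / w = q) →
        c ∈ Bd.filter (fun t => t / w = q) → a < b → b < c → False := by
      intro a b c ha hb hc hab hbc
      rw [Finset.mem_filter] at ha hb hc
      have ha1 := (Finset.mem_filter.1 ha.1)
      have hb1 := (Finset.mem_filter.1 hb.1).1
      have hc1 := (Finset.mem_filter.1 hc.1).1
      apply ha1.2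
      refine ⟨b - a, c - a, by omega, by omega, ?_, ?_, ?_⟩
      · have h1 : q * w ≤ a := by rw [← ha.2]; exact Nat.div_mul_le_self a w
        have h2 : c < q * w + w := by
          have := Nat.lt_div_mul_add (a := c) (b := w) (by omega)
          rw [hc.2] at this; exact this
        omega
      · rw [Nat.add_sub_cancel' hab.le]; exact hb1
      · rw [Nat.add_sub_cancel' (hab.trans hbc).le]; exact hc1
    rcases lt_trichotomy a b with h | h | h
    · rcases lt_trichotomy b c with h' | h' | h'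
      · exact key a b c ha hb hc h h'
      · exact hbc h'
      · rcases lt_trichotomy a c with h'' | h'' | h''
        · exact key a c b ha hc hb h'' h'
        · exact hac h''
        · exact key c a b hc ha hb h'' h
    · exact hab h
    · rcases lt_trichotomy a c with h' | h' | h'
      · exact key b a c hb ha hc h h'
      · exact hac h'
      · rcases lt_trichotomy b c with h'' | h'' | h''
        · exact key b c a hb hc ha h'' h'
        · exact hbc h''
        · exact key c b a hc hb ha h'' h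
  calc Bd.card ≤ 2 * (range (n / w + 1)).card :=
        Finset.card_le_mul_card_image_of_maps_to hmaps 2 hfib
    _ = 2 * (n / w + 1) := by rw [Finset.card_range]

theorem count {x0 k : ℤ} {m n H w K M : ℕ} (hm : 2 ≤ m) (hw : 1 ≤ w)
    (hM : (3 : ℤ) ^ w * (1 + |k|) ≤ M)
    (hinj : Set.InjOn (fun i => T^[i] x0) (range n : Finset ℕ))
    (hup : ∀ t < n, |T^[t] x0 - k| < 2 ^ (2 ^ K)) (S : Finset ℕ) (hS : S ⊆ range n)
    (hsp : ∀ t ∈ S, SpN k m H (T^[t] x0)) :
    S.card ≤ 2 * (n / w + 1) + (2 * H + 1) * (2 * (6 * M ^ 2)) +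
      2 ^ w * (w + 1) ^ 2 * (2 * H + 1) ^ 3 * (2 * K) := by

  -- choice of the square class and of the root
  have hch : ∀ y : ℤ, ∃ (s : ℤ) (a : ℕ), SpN k m H y → s ≠ 0 ∧ |s| ≤ H ∧ y - k = s * (a : ℤ) ^ m := by
    intro y
    by_cases h : SpN k m H y
    · obtain ⟨s, a, h1⟩ := h.1
      exact ⟨s, a, fun _ => h1⟩
    · exact ⟨0, 0, fun h' => absurd h' h⟩
  choose sf af hsa using hch
  set Bd := S.filter fun t => ¬ ∃ i j, 1 ≤ i ∧ i < j ∧ j ≤ w ∧ t + i ∈ S ∧ t + j ∈ S with hBd
  set Gd := S.filter fun t => ∃ i j, 1 ≤ i ∧ i < j ∧ j ≤ w ∧ t + i ∈ S ∧ t + j ∈ S with hGd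
  have hgd : ∀ t : ℕ, ∃ i j, t ∈ Gd → 1 ≤ i ∧ i < j ∧ j ≤ w ∧ t + i ∈ S ∧ t + j ∈ S := by
    intro t
    by_cases h : t ∈ Gd
    · obtain ⟨i, j, h1⟩ := (Finset.mem_filter.1 h).2
      exact ⟨i, j, fun _ => h1⟩
    · exact ⟨0, 0, fun h' => absurd h' h⟩
  choose ti tj htij using hgd
  have hcard : S.card = Gd.card + Bd.card := (Finset.card_filter_add_card_filter_not _).symm
  set Sm := Gd.filter fun t => af (T^[t] x0) < 2 * (6 * M ^ 2) with hSm
  set Lg := Gd.filter fun t => ¬ af (T^[t] x0) < 2 * (6 * M ^ 2) with hLg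
  have hcard2 : Gd.card = Sm.card + Lg.card := (Finset.card_filter_add_card_filter_not _).symm
  have hGS : ∀ t ∈ Gd, t ∈ S := fun t ht => (Finset.mem_filter.1 ht).1
  -- small ones
  have hsf : ∀ t ∈ S, sf (T^[t] x0) ∈ Finset.Icc (-(H : ℤ)) H := by
    intro t ht
    have := (hsa _ (hsp t ht)).2.1
    rw [Finset.mem_Icc]; exact abs_le.1 this
  have hSmc : Sm.card ≤ (2 * H + 1) * (2 * (6 * M ^ 2)) := by
    have h1 : Sm.card ≤ ((Finset.Icc (-(H : ℤ)) H) ×ˢ range (2 * (6 * M ^ 2))).card := by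
      apply Finset.card_le_card_of_injOn (fun t => (sf (T^[t] x0), af (T^[t] x0)))
      · intro t ht
        have ht' := Finset.mem_filter.1 (Finset.mem_coe.1 ht)
        simp only [Finset.coe_product, Set.mem_prod, Finset.mem_coe]
        exact ⟨hsf t (hGS t ht'.1), Finset.mem_range.2 ht'.2⟩
      · intro t ht u hu htu
        have ht' := (Finset.mem_filter.1 (Finset.mem_coe.1 ht)).1
        have hu' := (Finset.mem_filter.1 (Finset.mem_coe.1 hu)).1
        simp only [Prod.mk.injEq] at htu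
        have e1 := (hsa _ (hsp t (hGS t ht'))).2.2
        have e2 := (hsa _ (hsp u (hGS u hu'))).2.2
        rw [htu.1, htu.2, ← e2] at e1
        apply hinj (hS (hGS t ht')) (hS (hGS u hu'))
        simp only
        linarith
    refine h1.trans ?_
    rw [Finset.card_product, Int.card_Icc, Finset.card_range]
    apply le_of_eq
    congr 1
    omega
  -- large ones
  have hLgc : Lg.card ≤ (2 * K) * (2 ^ w * ((w + 1) * ((w + 1) * ((2 * H + 1) * ((2 * H + 1) *
      (2 * H + 1)))))) := by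
    set D := (Finset.Ico (0 : ℤ) (2 ^ w)) ×ˢ (range (w + 1) ×ˢ (range (w + 1) ×ˢ
      ((Finset.Icc (-(H : ℤ)) H) ×ˢ ((Finset.Icc (-(H : ℤ)) H) ×ˢ (Finset.Icc (-(H : ℤ)) H)))))
      with hD
    let φ : ℕ → ℤ × ℕ × ℕ × ℤ × ℤ × ℤ := fun t => (T^[t] x0 % 2 ^ w, ti t, tj t, sf (T^[t] x0),
      sf (T^[t + ti t] x0), sf (T^[t + tj t] x0))
    have hmaps : ∀ t ∈ Lg, φ t ∈ D := by
      intro t ht
      have ht' := (Finset.mem_filter.1 ht).1
      obtain ⟨h1, h2, h3, h4, h5⟩ := htij t ht'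
      simp only [φ, hD, Finset.mem_product, Finset.mem_Ico, Finset.mem_range]
      exact ⟨⟨Int.emod_nonneg _ (by positivity), Int.emod_lt_of_pos _ (by positivity)⟩,
        by omega, by omega, hsf t (hGS t ht'), hsf _ h4, hsf _ h5⟩
    have hfib : ∀ d ∈ D, (Lg.filter fun t => φ t = d).card ≤ 2 * K := by
      intro d _
      set F := Lg.filter fun t => φ t = d with hF
      rcases F.eq_empty_or_nonempty with he | ⟨t0, ht0⟩
      · rw [he]; simp
      have hφ : ∀ t ∈ F, φ t = φ t0 := by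
        intro t ht
        rw [(Finset.mem_filter.1 ht).2, (Finset.mem_filter.1 ht0).2]
      have hFL : ∀ t ∈ F, t ∈ Lg := fun t ht => (Finset.mem_filter.1 ht).1
      have hFG : ∀ t ∈ F, t ∈ Gd := fun t ht => (Finset.mem_filter.1 (hFL t ht)).1
      have hFS : ∀ t ∈ F, t ∈ S := fun t ht => hGS t (hFG t ht)
      have hinjF : Set.InjOn (fun i => T^[i] x0) (F : Set ℕ) := by
        intro t ht u hu h
        exact hinj (hS (hFS t ht)) (hS (hFS u hu)) h
      rw [← Finset.card_image_of_injOn hinjF]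
      obtain ⟨g1, g2, g3, g4, g5⟩ := htij t0 (hFG t0 ht0)
      have hcomp : ∀ t ∈ F, T^[t] x0 % 2 ^ w = T^[t0] x0 % 2 ^ w ∧ ti t = ti t0 ∧ tj t = tj t0 ∧
          sf (T^[t] x0) = sf (T^[t0] x0) ∧ sf (T^[t + ti t0] x0) = sf (T^[t0 + ti t0] x0) ∧
          sf (T^[t + tj t0] x0) = sf (T^[t0 + tj t0] x0) := by
        intro t ht
        have h := hφ t ht
        simp only [φ, Prod.mk.injEq] at h
        obtain ⟨h1, h2, h3, h4, h5, h6⟩ := h
        rw [h2] at h5
        rw [h3] at h6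
        exact ⟨h1, h2, h3, h4, h5, h6⟩
      have hiS : ∀ t ∈ F, t + ti t0 ∈ S ∧ t + tj t0 ∈ S := by
        intro t ht
        obtain ⟨c1, c2, c3, c4, c5, c6⟩ := hcomp t ht
        obtain ⟨_, _, _, g4', g5'⟩ := htij t (hFG t ht)
        rw [c2] at g4'
        rw [c3] at g5'
        exact ⟨g4', g5'⟩
      apply class_card (w := w) (i := ti t0) (j := tj t0) (m := m) (k := k)
        (s1 := sf (T^[t0] x0)) (s2 := sf (T^[t0 + ti t0] x0)) (s3 := sf (T^[t0 + tj t0] x0))
        hm g2 g3 (hsa _ (hsp _ (hFS t0 ht0))).1 (hsa _ (hsp _ g4)).1 (hsa _ (hsp _ g5)).1 hM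
        _ af (fun x => af (T^[ti t0] x)) (fun x => af (T^[tj t0] x))
      · intro x hx y hy
        obtain ⟨t, ht, rfl⟩ := Finset.mem_image.1 hx
        obtain ⟨u, hu, rfl⟩ := Finset.mem_image.1 hy
        have h : T^[t] x0 % 2 ^ w = T^[u] x0 % 2 ^ w := by
          rw [(hcomp t ht).1, (hcomp u hu).1]
        exact Int.dvd_of_emod_eq_zero (Int.emod_eq_emod_iff_emod_sub_eq_zero.1 h)
      · intro x hx
        obtain ⟨t, ht, rfl⟩ := Finset.mem_image.1 hx
        have hst := hsp t (hFS t ht)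
        have hsi := hsp _ (hiS t ht).1
        refine ⟨fun h => ?_, fun h => ?_, fun h => ?_⟩
        · obtain ⟨h1, h2⟩ := ek_zero h
          exact hst.2 _ g1 h1 h2
        · obtain ⟨h1, h2⟩ := ek_zero h
          exact hst.2 _ (by omega) h1 h2
        · obtain ⟨h1, h2⟩ := ek_zero h
          rw [← Function.iterate_add_apply, add_comm (ti t0) t] at h2
          exact hsi.2 _ (by omega) h1 h2
      · intro x hx
        obtain ⟨t, ht, rfl⟩ := Finset.mem_image.1 hx
        obtain ⟨c1, c2, c3, c4, c5, c6⟩ := hcomp t ht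
        refine ⟨?_, ?_, ?_⟩
        · rw [← c4]
          exact (hsa _ (hsp t (hFS t ht))).2.2
        · simp only [← Function.iterate_add_apply]
          rw [add_comm (ti t0) t, ← c5]
          exact (hsa _ (hsp _ (hiS t ht).1)).2.2
        · simp only [← Function.iterate_add_apply]
          rw [add_comm (tj t0) t, ← c6]
          exact (hsa _ (hsp _ (hiS t ht).2)).2.2
      · intro x hx
        obtain ⟨t, ht, rfl⟩ := Finset.mem_image.1 hx
        have := (Finset.mem_filter.1 (hFL t ht)).2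
        omega
      · intro x hx
        obtain ⟨t, ht, rfl⟩ := Finset.mem_image.1 hx
        exact hup t (Finset.mem_range.1 (hS (hFS t ht)))
    have h1 := Finset.card_le_mul_card_image_of_maps_to hmaps (2 * K) hfib
    refine h1.trans (le_of_eq ?_)
    have hI : (Finset.Icc (-(H : ℤ)) H).card = 2 * H + 1 := by
      rw [Int.card_Icc]; omega
    have hJ : (Finset.Ico (0 : ℤ) (2 ^ w)).card = 2 ^ w := by
      rw [Int.card_Ico, sub_zero]
      have : ((2 : ℤ) ^ w) = ((2 ^ w : ℕ) : ℤ) := by push_cast; rfl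
      rw [this, Int.toNat_natCast]
    rw [hD]
    simp only [Finset.card_product, hI, hJ, Finset.card_range]
  have hbad : Bd.card ≤ 2 * (n / w + 1) := by
    rw [hBd]; convert bad_count hw S hS
  rw [hcard, hcard2]
  have h5 : (2 * K) * (2 ^ w * ((w + 1) * ((w + 1) * ((2 * H + 1) * ((2 * H + 1) *
      (2 * H + 1)))))) = 2 ^ w * (w + 1) ^ 2 * (2 * H + 1) ^ 3 * (2 * K) := by ring
  rw [h5] at hLgc
  omega

end Pool.Agent.V5helper5.SQ
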