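import Mathlib
import Pool.Agent.V5helper5.SQ.Count

set_option autoImplicit false

namespace Pool.Agent.V5helper5.SQ

open Finset

/-- real form of a special element -/
def Sp (k : ℤ) (m : ℕ) (B : ℝ) (y : ℤ) : Prop :=
  (∃ s a : ℤ, s ≠ 0 ∧ |(s : ℝ)| ≤ B ∧ y - k = s * a ^ m) ∧
    ∀ π : ℕ, 1 ≤ π → T^[π] k = k → ¬ (2 : ℤ) ^ π ∣ y - k

lemma Sp.toN {k : ℤ} {m : ℕ} {B : ℝ} {y : ℤ} (h : Sp k m B y) : SpN k m ⌊B⌋₊ y := by
  obtain ⟨⟨s, a, hs, hB, he⟩, h2⟩ := h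
  refine ⟨?_, h2⟩
  have hsB : |s| ≤ (⌊B⌋₊ : ℤ) := by
    have h1 : (s.natAbs : ℝ) ≤ B := by
      rw [Nat.cast_natAbs, Int.cast_abs]; exact hB
    have h3 : s.natAbs ≤ ⌊B⌋₊ := Nat.le_floor h1
    have h4 : ((s.natAbs : ℕ) : ℤ) ≤ (⌊B⌋₊ : ℤ) := by exact_mod_cast h3
    rwa [Int.natCast_natAbs] at h4
  rcases le_or_gt 0 a with ha | ha
  · refine ⟨s, a.toNat, hs, hsB, ?_⟩
    rw [Int.toNat_of_nonneg ha]; exact he
  · refine ⟨s * (-1) ^ m, (-a).toNat, ?_, ?_, ?_⟩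
    · exact mul_ne_zero hs (pow_ne_zero _ (by norm_num))
    · rw [abs_mul, abs_pow, abs_neg, abs_one, one_pow, mul_one]; exact hsB
    · rw [Int.toNat_of_nonneg (by omega), he, mul_assoc, ← mul_pow]
      congr 2; ring

lemma Sp.mono {k : ℤ} {m : ℕ} {B B' : ℝ} {y : ℤ} (h : Sp k m B y) (hB : B ≤ B') : Sp k m B' y := by
  obtain ⟨⟨s, a, hs, h1, he⟩, h2⟩ := h
  exact ⟨⟨s, a, hs, h1.trans hB, he⟩, h2⟩

lemma up_bound {A n : ℕ} (hn : 2 ≤ n) {x0 k : ℤ} {d : ℝ} (hd1 : d ≤ 1)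
    (hk : |(k : ℝ)| ≤ (n : ℝ) ^ d) (hx : |(x0 : ℝ)| ≤ Real.exp ((n : ℝ) ^ A)) :
    ∀ t < n, |T^[t] x0 - k| < 2 ^ (2 ^ ((A + 2) * (Nat.log 2 n + 1) + 2)) := by
  intro t ht
  have hn1 : (1 : ℝ) ≤ n := by exact_mod_cast (by omega : 1 ≤ n)
  have hk1 : |k| ≤ (n : ℤ) := by
    have h1 : (n : ℝ) ^ d ≤ n := by
      calc (n : ℝ) ^ d ≤ (n : ℝ) ^ (1 : ℝ) := Real.rpow_le_rpow_of_exponent_le hn1 hd1
        _ = n := Real.rpow_one _
    have h2 : |(k : ℝ)| ≤ n := hk.trans h1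
    exact_mod_cast h2
  have hx1 : |x0| ≤ 2 ^ (2 * n ^ A) := by
    have h1 : Real.exp ((n : ℝ) ^ A) ≤ (4 : ℝ) ^ (n ^ A) := by
      have h2 : Real.exp 1 ≤ 4 := by linarith [Real.exp_one_lt_d9]
      calc Real.exp ((n : ℝ) ^ A) = Real.exp 1 ^ (n ^ A) := by
            rw [← Real.exp_nat_mul]; push_cast; rw [mul_one]
        _ ≤ (4 : ℝ) ^ (n ^ A) := pow_le_pow_left₀ (Real.exp_pos _).le h2 _
    have h3 : |(x0 : ℝ)| ≤ (2 : ℝ) ^ (2 * n ^ A) := by
      refine (hx.trans h1).trans (le_of_eq ?_)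
      rw [pow_mul]; norm_num
    exact_mod_cast h3
  have h2n : (n : ℤ) < 2 ^ n := by exact_mod_cast Nat.lt_two_pow_self
  have hit := abs_iterate_le x0 t
  have h1 : (2 : ℤ) ^ t ≤ 2 ^ n := pow_le_pow_right₀ (by norm_num) ht.le
  have h3 : |T^[t] x0| ≤ 2 ^ (n + 2 * n ^ A) := by
    rw [pow_add]
    exact hit.trans (mul_le_mul h1 hx1 (abs_nonneg _) (by positivity))
  have h4 : (2 : ℤ) ^ n ≤ 2 ^ (n + 2 * n ^ A) := pow_le_pow_right₀ (by norm_num) (by omega)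
  have h5 : |T^[t] x0 - k| < 2 ^ (n + 2 * n ^ A + 1) := by
    have h6 : |T^[t] x0 - k| ≤ |T^[t] x0| + |k| := abs_sub _ _
    rw [pow_succ]
    linarith
  refine h5.trans_le (pow_le_pow_right₀ (by norm_num) ?_)
  have h7 : n < 2 ^ (Nat.log 2 n + 1) := Nat.lt_pow_succ_log_self (by norm_num) n
  have h8 : 4 * n ^ (A + 2) ≤ 2 ^ ((A + 2) * (Nat.log 2 n + 1) + 2) := by
    calc 4 * n ^ (A + 2) ≤ 4 * (2 ^ (Nat.log 2 n + 1)) ^ (A + 2) :=
          Nat.mul_le_mul_left _ (Nat.pow_le_pow_left h7.le _)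
      _ = 2 ^ ((A + 2) * (Nat.log 2 n + 1) + 2) := by
          rw [← pow_mul, mul_comm (Nat.log 2 n + 1), pow_add _ _ 2]; ring
  have h9 : 4 * n ^ A ≤ n ^ (A + 2) := by
    rw [pow_add, mul_comm]
    exact Nat.mul_le_mul_left _ (by nlinarith)
  have h10 : n ≤ n ^ (A + 2) := Nat.le_self_pow (by omega) n
  have h11 : 1 ≤ n ^ (A + 2) := Nat.one_le_pow _ _ (by omega)
  omega

theorem asym {c d : ℝ} (hc0 : 0 ≤ c) (hd0 : 0 ≤ d) (hc : 3 * c < 1) (hcd : c + 2 * d < 1)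
    (A : ℕ) : ∃ C : ℝ, 0 < C ∧ ∀ m : ℕ, 2 ≤ m → ∀ (k x0 : ℤ) (n : ℕ), 2 ≤ n →
      |(k : ℝ)| ≤ (n : ℝ) ^ d → |(x0 : ℝ)| ≤ Real.exp ((n : ℝ) ^ A) →
      Set.InjOn (fun i => T^[i] x0) (range n : Finset ℕ) →
      ∀ S : Finset ℕ, S ⊆ range n → (∀ t ∈ S, Sp k m ((n : ℝ) ^ c) (T^[t] x0)) →
        (S.card : ℝ) ≤ C * (n / Real.log n) := by
  set ρ : ℝ := max (3 * c) (c + 2 * d) with hρ
  have hρ1 : ρ < 1 := max_lt hc hcd
  have hρ0 : 0 ≤ ρ := le_max_of_le_left (by linarith)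
  set η : ℝ := (1 - ρ) / 2 with hη
  set ε : ℝ := (1 - ρ) / 4 with hε
  have hη0 : 0 < η := by rw [hη]; linarith
  have hε0 : 0 < ε := by rw [hε]; linarith
  refine ⟨12 / η + 2 + (288 + 54 * (4 * A + 12)) / ε ^ 2 + 3 / η, by positivity, ?_⟩
  intro m hm k x0 n hn hk hx hinj S hS hsp
  have hnR : (2 : ℝ) ≤ n := by exact_mod_cast hn
  have hn0 : (0 : ℝ) < n := by linarith
  have hn1 : (1 : ℝ) ≤ n := by linarith
  set L : ℝ := Real.log n with hL
  have hLhalf : 1 / 2 < L := by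
    have h1 : Real.log 2 ≤ L := Real.log_le_log (by norm_num) hnR
    linarith [Real.log_two_gt_d9]
  have hL0 : 0 < L := by linarith
  have hnL : 0 < n / L := by positivity
  have hLn : L ≤ n := by
    have := Real.log_le_sub_one_of_pos hn0
    rw [← hL] at this; linarith
  have hn_le : 1 ≤ n / L := by rw [le_div_iff₀ hL0]; linarith
  have hA0 : (0 : ℝ) ≤ A := Nat.cast_nonneg _
  set w := ⌊η * L / 3⌋₊ with hw
  rcases Nat.eq_zero_or_pos w with hw0 | hw1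
  · have h1 : η * L / 3 < 1 := by
      rw [hw] at hw0
      exact Nat.floor_eq_zero.1 hw0
    have h2 : (S.card : ℝ) ≤ n := by
      have := Finset.card_le_card hS
      rw [Finset.card_range] at this
      exact_mod_cast this
    have h3 : (n : ℝ) ≤ 3 / η * (n / L) := by
      rw [div_mul_div_comm, le_div_iff₀ (by positivity)]
      nlinarith
    have h4 : 0 ≤ 12 / η + 2 + (288 + 54 * (4 * (A : ℝ) + 12)) / ε ^ 2 := by positivity
    nlinarith [mul_nonneg h4 hnL.le]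
  · set H := ⌊(n : ℝ) ^ c⌋₊ with hH
    set M := 3 ^ w * (1 + ⌊(n : ℝ) ^ d⌋₊) with hM
    set K := (A + 2) * (Nat.log 2 n + 1) + 2 with hK
    have hnc : 1 ≤ (n : ℝ) ^ c := Real.one_le_rpow hn1 hc0
    have hnd : 1 ≤ (n : ℝ) ^ d := Real.one_le_rpow hn1 hd0
    have hMk : (3 : ℤ) ^ w * (1 + |k|) ≤ M := by
      rw [hM]
      push_cast
      apply mul_le_mul_of_nonneg_left _ (by positivity)
      have h1 : (k.natAbs : ℝ) ≤ (n : ℝ) ^ d := by
        rw [Nat.cast_natAbs, Int.cast_abs]; exact hk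
      have h3 : k.natAbs ≤ ⌊(n : ℝ) ^ d⌋₊ := Nat.le_floor h1
      have h4 : ((k.natAbs : ℕ) : ℤ) ≤ (⌊(n : ℝ) ^ d⌋₊ : ℤ) := by exact_mod_cast h3
      rw [Int.natCast_natAbs] at h4
      linarith
    have hcount := count (x0 := x0) (k := k) (m := m) (n := n) (H := H) (w := w) (K := K) (M := M)
      hm hw1 hMk hinj (up_bound hn (by linarith) hk hx) S hS (fun t ht => (hsp t ht).toN)
    have hcR : (S.card : ℝ) ≤ 2 * ((n / w : ℕ) + 1) + (2 * H + 1) * (2 * (6 * M ^ 2)) +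
        2 ^ w * (w + 1) ^ 2 * (2 * H + 1) ^ 3 * (2 * K) := by exact_mod_cast hcount
    -- the bounds
    have hwR : (1 : ℝ) ≤ w := by exact_mod_cast hw1
    have hwle : (w : ℝ) ≤ η * L / 3 := Nat.floor_le (by positivity)
    have hwlt : η * L / 3 < w + 1 := Nat.lt_floor_add_one _
    have hw6 : η * L / 6 ≤ w := by linarith
    have b1 : ((n / w : ℕ) : ℝ) ≤ 6 / η * (n / L) := by
      calc ((n / w : ℕ) : ℝ) ≤ (n : ℝ) / w := Nat.cast_div_le
        _ ≤ n / (η * L / 6) := div_le_div_of_nonneg_left hn0.le (by positivity) hw6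
        _ = 6 / η * (n / L) := by field_simp
    have b16 : (16 : ℝ) ^ w ≤ (n : ℝ) ^ η := by
      have h1 : (16 : ℝ) ≤ Real.exp 3 := by
        have h2 : Real.exp 3 = Real.exp 1 ^ 3 := by
          rw [← Real.exp_nat_mul]; norm_num
        rw [h2]
        have h3 := Real.exp_one_gt_d9
        have h4 : (2.7 : ℝ) ^ 3 ≤ Real.exp 1 ^ 3 := pow_le_pow_left₀ (by norm_num) (by linarith) 3
        norm_num at h4 ⊢
        linarith
      calc (16 : ℝ) ^ w ≤ Real.exp 3 ^ w := pow_le_pow_left₀ (by norm_num) h1 w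
        _ = Real.exp (w * 3) := by rw [← Real.exp_nat_mul]
        _ ≤ Real.exp (L * η) := by
            apply Real.exp_le_exp.2
            linarith
        _ = (n : ℝ) ^ η := by rw [Real.rpow_def_of_pos hn0]
    have b9 : (9 : ℝ) ^ w ≤ (n : ℝ) ^ η :=
      (pow_le_pow_left₀ (by norm_num) (by norm_num) w).trans b16
    have b8 : (2 : ℝ) ^ w * (w + 1) ^ 2 ≤ (n : ℝ) ^ η := by
      have h1 : ((w : ℝ) + 1) ≤ 2 ^ w := by
        have : w + 1 ≤ 2 ^ w := Nat.lt_two_pow_self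
        exact_mod_cast this
      have h2 : ((w : ℝ) + 1) ^ 2 ≤ (2 ^ w) ^ 2 := pow_le_pow_left₀ (by positivity) h1 2
      calc (2 : ℝ) ^ w * (w + 1) ^ 2 ≤ 2 ^ w * (2 ^ w) ^ 2 :=
            mul_le_mul_of_nonneg_left h2 (by positivity)
        _ = 8 ^ w := by rw [← pow_mul, mul_comm w 2, pow_mul, ← mul_pow]; norm_num
        _ ≤ 16 ^ w := pow_le_pow_left₀ (by norm_num) (by norm_num) w
        _ ≤ _ := b16
    have bH : (2 * (H : ℝ) + 1) ≤ 3 * (n : ℝ) ^ c := by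
      have : (H : ℝ) ≤ (n : ℝ) ^ c := Nat.floor_le (by positivity)
      linarith
    have bM : (M : ℝ) ≤ 3 ^ w * (2 * (n : ℝ) ^ d) := by
      rw [hM]; push_cast
      apply mul_le_mul_of_nonneg_left _ (by positivity)
      have : (⌊(n : ℝ) ^ d⌋₊ : ℝ) ≤ (n : ℝ) ^ d := Nat.floor_le (by positivity)
      linarith
    have bM2 : (M : ℝ) ^ 2 ≤ 4 * (n : ℝ) ^ η * (n : ℝ) ^ (2 * d) := by
      have h1 : (M : ℝ) ^ 2 ≤ (3 ^ w * (2 * (n : ℝ) ^ d)) ^ 2 :=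
        pow_le_pow_left₀ (Nat.cast_nonneg _) bM 2
      have h2 : ((n : ℝ) ^ d) ^ 2 = (n : ℝ) ^ (2 * d) := by
        rw [← Real.rpow_natCast, ← Real.rpow_mul hn0.le]; congr 1; push_cast; ring
      have h3 : ((3 : ℝ) ^ w) ^ 2 = 9 ^ w := by rw [← pow_mul, mul_comm, pow_mul]; norm_num
      calc (M : ℝ) ^ 2 ≤ (3 ^ w * (2 * (n : ℝ) ^ d)) ^ 2 := h1
        _ = 4 * 9 ^ w * (n : ℝ) ^ (2 * d) := by rw [← h2, ← h3]; ring
        _ ≤ _ := by
          apply mul_le_mul_of_nonneg_right _ (by positivity)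
          linarith
    have bK : (K : ℝ) ≤ (4 * A + 12) * L := by
      have h1 : (Nat.log 2 n : ℝ) ≤ 2 * L := by
        have h2 : 2 ^ (Nat.log 2 n) ≤ n := Nat.pow_log_le_self 2 (by omega)
        have h3 : ((2 : ℝ) ^ (Nat.log 2 n)) ≤ n := by exact_mod_cast h2
        have h4 := Real.log_le_log (by positivity) h3
        rw [Real.log_pow] at h4
        have h5 := Real.log_two_gt_d9
        have h6 : (0 : ℝ) ≤ (Nat.log 2 n : ℝ) := Nat.cast_nonneg _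
        nlinarith
      rw [hK]; push_cast
      nlinarith
    set G : ℝ := (n : ℝ) ^ (ρ + η) with hG
    have hG0 : 0 < G := by positivity
    have bG2 : (2 * (H : ℝ) + 1) * (2 * (6 * (M : ℝ) ^ 2)) ≤ 144 * G := by
      have h1 : (n : ℝ) ^ c * ((n : ℝ) ^ η * (n : ℝ) ^ (2 * d)) ≤ G := by
        rw [← Real.rpow_add hn0, ← Real.rpow_add hn0]
        apply Real.rpow_le_rpow_of_exponent_le hn1
        have : c + 2 * d ≤ ρ := le_max_right _ _
        linarith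
      calc (2 * (H : ℝ) + 1) * (2 * (6 * (M : ℝ) ^ 2))
          ≤ (3 * (n : ℝ) ^ c) * (2 * (6 * (4 * (n : ℝ) ^ η * (n : ℝ) ^ (2 * d)))) := by
            apply mul_le_mul bH _ (by positivity) (by positivity)
            linarith
        _ = 144 * ((n : ℝ) ^ c * ((n : ℝ) ^ η * (n : ℝ) ^ (2 * d))) := by ring
        _ ≤ _ := by linarith
    have bG3 : (2 : ℝ) ^ w * (w + 1) ^ 2 * (2 * H + 1) ^ 3 * (2 * K) ≤
        54 * (4 * A + 12) * (G * L) := by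
      have h1 : (n : ℝ) ^ η * ((n : ℝ) ^ c) ^ 3 ≤ G := by
        have h2 : ((n : ℝ) ^ c) ^ 3 = (n : ℝ) ^ (3 * c) := by
          rw [← Real.rpow_natCast, ← Real.rpow_mul hn0.le]; congr 1; push_cast; ring
        rw [h2, ← Real.rpow_add hn0]
        apply Real.rpow_le_rpow_of_exponent_le hn1
        have : 3 * c ≤ ρ := le_max_left _ _
        linarith
      have h3 : (2 * (H : ℝ) + 1) ^ 3 ≤ (3 * (n : ℝ) ^ c) ^ 3 :=
        pow_le_pow_left₀ (by positivity) bH 3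
      calc (2 : ℝ) ^ w * (w + 1) ^ 2 * (2 * H + 1) ^ 3 * (2 * K)
          ≤ (n : ℝ) ^ η * (3 * (n : ℝ) ^ c) ^ 3 * (2 * ((4 * A + 12) * L)) := by
            apply mul_le_mul _ _ (by positivity) (by positivity)
            · exact mul_le_mul b8 h3 (by positivity) (by positivity)
            · linarith
        _ = 54 * (4 * A + 12) * (((n : ℝ) ^ η * ((n : ℝ) ^ c) ^ 3) * L) := by ring
        _ ≤ _ := by
            apply mul_le_mul_of_nonneg_left _ (by positivity)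
            exact mul_le_mul_of_nonneg_right h1 hL0.le
    have bL : G * L ≤ 1 / ε ^ 2 * (n / L) := by
      have h1 : L ≤ (n : ℝ) ^ ε / ε := Real.log_le_rpow_div hn0.le hε0
      have h2 : L * L ≤ (n : ℝ) ^ (2 * ε) / ε ^ 2 := by
        calc L * L ≤ ((n : ℝ) ^ ε / ε) * ((n : ℝ) ^ ε / ε) :=
              mul_le_mul h1 h1 hL0.le (by positivity)
          _ = ((n : ℝ) ^ ε * (n : ℝ) ^ ε) / ε ^ 2 := by field_simp
          _ = _ := by rw [← Real.rpow_add hn0]; congr 2; ring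
      have h3 : G * (n : ℝ) ^ (2 * ε) = n := by
        rw [hG, ← Real.rpow_add hn0]
        have : ρ + η + 2 * ε = 1 := by rw [hη, hε]; ring
        rw [this, Real.rpow_one]
      have h4 : G * (L * L) ≤ n / ε ^ 2 := by
        calc G * (L * L) ≤ G * ((n : ℝ) ^ (2 * ε) / ε ^ 2) :=
              mul_le_mul_of_nonneg_left h2 hG0.le
          _ = (G * (n : ℝ) ^ (2 * ε)) / ε ^ 2 := by ring
          _ = _ := by rw [h3]
      have h5 : 1 / ε ^ 2 * (n / L) = (n / ε ^ 2) / L := by field_simp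
      rw [h5, le_div_iff₀ hL0]
      linarith
    have bGL : 144 * G ≤ 288 * (G * L) := by nlinarith
    have fin1 : (S.card : ℝ) ≤ 2 * (6 / η * (n / L) + 1) + 288 * (G * L) +
        54 * (4 * A + 12) * (G * L) := by
      linarith
    have fin2 : (288 + 54 * (4 * (A : ℝ) + 12)) * (G * L) ≤
        (288 + 54 * (4 * (A : ℝ) + 12)) * (1 / ε ^ 2 * (n / L)) :=
      mul_le_mul_of_nonneg_left bL (by positivity)
    have e1 : (12 / η + 2 + (288 + 54 * (4 * (A : ℝ) + 12)) / ε ^ 2 + 3 / η) * (n / L) =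
        2 * (6 / η * (n / L)) + 2 * (n / L) + (288 + 54 * (4 * (A : ℝ) + 12)) *
        (1 / ε ^ 2 * (n / L)) + 3 / η * (n / L) := by ring
    rw [e1]
    have h0 : 0 ≤ 3 / η * (n / L) := by positivity
    linarith

end Pool.Agent.V5helper5.SQ
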