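import Mathlib
import Pool.Agent.V5helper5.SQ.Asym

set_option autoImplicit false

namespace Pool.Agent.V5helper5.SQ

open Finset

/-- cycles of the 3x+1 map -/
def IsCyc (Z : Finset ℤ) : Prop :=
  ∃ (x : ℤ) (p : ℕ), 1 ≤ p ∧ T^[p] x = x ∧ Z = (Finset.range p).image fun i => T^[i] x

lemma abs_le_of_period {x : ℤ} {p : ℕ} (hp : 1 ≤ p) (hx : T^[p] x = x) : |x| ≤ 3 ^ p := by
  have h1 := branch x p
  rw [hx] at h1
  have h2 : ((2 : ℤ) ^ p - 3 ^ od p x) * x = cc p x := by linarith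
  have h3 := cc_bounds x p
  have hne : (2 : ℤ) ^ p - 3 ^ od p x ≠ 0 := by
    intro h
    have h4 : (2 : ℤ) ∣ 3 ^ od p x := by
      have : (3 : ℤ) ^ od p x = 2 ^ p := by linarith
      rw [this]; exact dvd_pow_self 2 (by omega)
    have h5 : (2 : ℤ) ∣ 3 := Int.prime_two.dvd_of_dvd_pow h4
    omega
  have h6 : 1 ≤ |(2 : ℤ) ^ p - 3 ^ od p x| := Int.one_le_abs hne
  have h7 : |(2 : ℤ) ^ p - 3 ^ od p x| * |x| ≤ 3 ^ p := by
    rw [← abs_mul, h2, abs_of_nonneg h3.1]
    have : (0 : ℤ) < 2 ^ p := by positivity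
    linarith [h3.2]
  nlinarith [abs_nonneg x]

lemma cyc_data {Z : Finset ℤ} (hZ : IsCyc Z) : ∃ x : ℤ, 1 ≤ Z.card ∧ T^[Z.card] x = x ∧
    Set.InjOn (fun i => T^[i] x) (range Z.card : Finset ℕ) ∧
    Z = (Finset.range Z.card).image (fun i => T^[i] x) ∧ |x| ≤ 3 ^ Z.card := by
  obtain ⟨x, p, hp, hx, rfl⟩ := hZ
  set q := Function.minimalPeriod T x with hq
  have hper : Function.IsPeriodicPt T p x := hx
  have hq0 : 0 < q := Function.IsPeriodicPt.minimalPeriod_pos (by omega) hper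
  have hqp : q ∣ p := hper.minimalPeriod_dvd
  have hinj : Set.InjOn (fun i => T^[i] x) (range q : Finset ℕ) := by
    intro i hi j hj hij
    rw [Finset.coe_range] at hi hj
    exact Function.iterate_injOn_Iio_minimalPeriod hi hj hij
  have himg : (Finset.range p).image (fun i => T^[i] x) =
      (Finset.range q).image (fun i => T^[i] x) := by
    ext y
    simp only [Finset.mem_image, Finset.mem_range]
    constructor
    · rintro ⟨i, _, rfl⟩
      exact ⟨i % q, Nat.mod_lt _ hq0, Function.iterate_mod_minimalPeriod_eq⟩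
    · rintro ⟨i, hi, rfl⟩
      exact ⟨i, lt_of_lt_of_le hi (Nat.le_of_dvd (by omega) hqp), rfl⟩
  have hcard : ((Finset.range p).image (fun i => T^[i] x)).card = q := by
    rw [himg, Finset.card_image_of_injOn hinj, Finset.card_range]
  have hxq : T^[q] x = x := Function.isPeriodicPt_minimalPeriod T x
  refine ⟨x, ?_, ?_, ?_, ?_, ?_⟩
  · rw [hcard]; exact hq0
  · rw [hcard]; exact hxq
  · rw [hcard]; exact hinj
  · rw [hcard]; exact himg
  · rw [hcard]; exact abs_le_of_period hq0 hxq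

/-- on cycles -/
theorem cyc_asym {c d : ℝ} (hc0 : 0 ≤ c) (hd0 : 0 ≤ d) (hc : 3 * c < 1) (hcd : c + 2 * d < 1) :
    ∃ C : ℝ, 0 < C ∧ ∀ m : ℕ, 2 ≤ m → ∀ (k : ℤ) (Z : Finset ℤ), IsCyc Z → 2 ≤ Z.card →
      |(k : ℝ)| ≤ (Z.card : ℝ) ^ d → ∀ F : Finset ℤ, F ⊆ Z →
        (∀ y ∈ F, Sp k m ((Z.card : ℝ) ^ c) y) →
        (F.card : ℝ) ≤ C * (Z.card / Real.log Z.card) := by
  classical
  obtain ⟨C, hC0, hC⟩ := asym hc0 hd0 hc hcd 2
  refine ⟨C, hC0, ?_⟩
  intro m hm k Z hZ hZ2 hk F hF hsp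
  obtain ⟨x, hp1, hx, hinj, himg, hxb⟩ := cyc_data hZ
  set p := Z.card with hp
  have hxe : |(x : ℝ)| ≤ Real.exp ((p : ℝ) ^ 2) := by
    have h1 : |(x : ℝ)| ≤ (3 : ℝ) ^ p := by exact_mod_cast hxb
    have h2 : (3 : ℝ) ≤ Real.exp 2 := by linarith [Real.add_one_le_exp (2 : ℝ)]
    have h3 : (3 : ℝ) ^ p ≤ Real.exp 2 ^ p := pow_le_pow_left₀ (by norm_num) h2 p
    have h4 : Real.exp 2 ^ p = Real.exp (p * 2) := by rw [← Real.exp_nat_mul]
    have h5 : (p : ℝ) * 2 ≤ (p : ℝ) ^ 2 := by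
      have : (2 : ℝ) ≤ p := by exact_mod_cast hZ2
      nlinarith
    calc |(x : ℝ)| ≤ (3 : ℝ) ^ p := h1
      _ ≤ Real.exp 2 ^ p := h3
      _ = Real.exp (p * 2) := h4
      _ ≤ _ := Real.exp_le_exp.2 h5
  set S := (range p).filter (fun t => T^[t] x ∈ F) with hS
  have hFS : F = S.image (fun t => T^[t] x) := by
    ext y
    simp only [hS, Finset.mem_image, Finset.mem_filter, Finset.mem_range]
    constructor
    · intro hy
      have h1 : y ∈ (Finset.range p).image (fun i => T^[i] x) := himg ▸ hF hy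
      obtain ⟨t, ht, rfl⟩ := Finset.mem_image.1 h1
      exact ⟨t, ⟨Finset.mem_range.1 ht, hy⟩, rfl⟩
    · rintro ⟨t, ⟨_, h⟩, rfl⟩
      exact h
  have hle : F.card ≤ S.card := by
    rw [hFS]; exact Finset.card_image_le
  have := hC m hm k x p hZ2 hk hxe hinj S (Finset.filter_subset _ _)
    (fun t ht => hsp _ (Finset.mem_filter.1 ht).2)
  exact le_trans (by exact_mod_cast hle) this

/-- the number of odd elements of a cycle other than `{0}` is at least half the length -/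
lemma half_odd {Z : Finset ℤ} (hZ : IsCyc Z) (h0 : (0 : ℤ) ∉ Z) :
    Z.card ≤ 2 * (Z.filter fun y => y % 2 ≠ 0).card := by
  classical
  obtain ⟨x, hp1, hx, hinj, himg, hxb⟩ := cyc_data hZ
  set p := Z.card with hp
  have hod : ∀ i : ℕ, i ≤ p → od i x = ((range i).filter fun t => T^[t] x % 2 ≠ 0).card := by
    intro i hi
    induction i with
    | zero => simp [od]
    | succ i ih =>
      rw [od, ih (by omega), Finset.range_add_one, Finset.filter_insert]
      by_cases h1 : T^[i] x % 2 = 0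
      · rw [if_pos h1, if_neg (not_not.2 h1), add_zero]
      · rw [if_neg h1, if_pos h1, Finset.card_insert_of_notMem (by simp)]
  have hbnd : ∀ i : ℕ, (2 : ℤ) ^ i * |T^[i] x| ≤ 2 ^ (2 * od i x) * |x| := by
    intro i
    induction i with
    | zero => simp [od]
    | succ i ih =>
      rw [Function.iterate_succ_apply', od]
      have h := two_T (T^[i] x)
      split_ifs at h ⊢ with h1
      · have h2 : 2 * |T (T^[i] x)| = |T^[i] x| := by
          have h5 : |2 * T (T^[i] x)| = |T^[i] x| := by rw [h]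
          rw [abs_mul] at h5
          simpa using h5
        rw [pow_succ, add_zero, mul_assoc, h2]
        exact ih
      · have h2 := abs_T_le (T^[i] x)
        have h3 : (0 : ℤ) < 2 ^ i := by positivity
        calc (2 : ℤ) ^ (i + 1) * |T (T^[i] x)| = 2 * (2 ^ i * |T (T^[i] x)|) := by ring
          _ ≤ 2 * (2 ^ i * (2 * |T^[i] x|)) := by
              have := mul_le_mul_of_nonneg_left h2 h3.le
              linarith
          _ = 4 * (2 ^ i * |T^[i] x|) := by ring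
          _ ≤ 4 * (2 ^ (2 * od i x) * |x|) := by linarith
          _ = 2 ^ (2 * (od i x + 1)) * |x| := by ring
  have hxZ : x ∈ Z := by
    rw [himg]; exact Finset.mem_image.2 ⟨0, Finset.mem_range.2 hp1, rfl⟩
  have hx0 : 0 < |x| := by
    rw [abs_pos]; rintro rfl; exact h0 hxZ
  have h1 := hbnd p
  rw [hx] at h1
  have h2 : (2 : ℤ) ^ p ≤ 2 ^ (2 * od p x) := le_of_mul_le_mul_right h1 hx0
  have h3 : p ≤ 2 * od p x := (pow_le_pow_iff_right₀ (by norm_num)).1 h2
  have h4 : od p x ≤ (Z.filter fun y => y % 2 ≠ 0).card := by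
    rw [hod p le_rfl]
    apply Finset.card_le_card_of_injOn (fun t => T^[t] x)
    · intro t ht
      have ht' := Finset.mem_filter.1 (Finset.mem_coe.1 ht)
      apply Finset.mem_coe.2
      rw [Finset.mem_filter]
      refine ⟨?_, ht'.2⟩
      rw [himg]
      exact Finset.mem_image.2 ⟨t, ht'.1, rfl⟩
    · intro t ht u hu h
      exact hinj (Finset.mem_filter.1 (Finset.mem_coe.1 ht)).1
        (Finset.mem_filter.1 (Finset.mem_coe.1 hu)).1 h
  omega

lemma finite_small (N : ℕ) : {Z : Finset ℤ | IsCyc Z ∧ Z.card ≤ N}.Finite := by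
  classical
  apply Set.Finite.subset (Finset.finite_toSet (Finset.Icc (-(3 ^ N : ℤ)) (3 ^ N)).powerset)
  rintro Z ⟨hZ, hN⟩
  rw [Finset.mem_coe, Finset.mem_powerset]
  intro y hy
  have hper : ∃ q, 1 ≤ q ∧ q ≤ N ∧ T^[q] y = y := by
    obtain ⟨x, hp1, hx, hinj, himg, hxb⟩ := cyc_data hZ
    rw [himg] at hy
    obtain ⟨t, ht, rfl⟩ := Finset.mem_image.1 hy
    refine ⟨Z.card, hp1, hN, ?_⟩
    rw [← Function.iterate_add_apply, add_comm, Function.iterate_add_apply, hx]
  obtain ⟨q, hq1, hqN, hq⟩ := hper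
  have h1 := abs_le_of_period hq1 hq
  have h2 : (3 : ℤ) ^ q ≤ 3 ^ N := pow_le_pow_right₀ (by norm_num) hqN
  rw [Finset.mem_Icc]
  have h3 := abs_le.1 (h1.trans h2)
  exact h3

end Pool.Agent.V5helper5.SQ
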